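import Mathlib

/-!
# Logarithmic disjointness of an orbit from a bounded sequence, by windows that are typical for the limit measures
-/

set_option autoImplicit false

namespace Pool.Agent.Helper44K9.FS

open Finset MeasureTheory Filter Topology

/-- harmonic sum -/
noncomputable def hs (N : ℕ) : ℝ := ∑ n ∈ Icc 1 N, 1 / (n : ℝ)

lemma hs_pos {N : ℕ} (hN : 1 ≤ N) : 0 < hs N := by
  refine sum_pos (fun n hn => ?_) ⟨1, by simp [hN]⟩
  have : (1 : ℝ) ≤ n := by exact_mod_cast (mem_Icc.1 hn).1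
  positivity

lemma hs_nonneg (N : ℕ) : 0 ≤ hs N := sum_nonneg fun n _ => by positivity

lemma hs_le (N : ℕ) : hs N ≤ 1 + Real.log N := by
  refine le_trans (le_of_eq ?_) (harmonic_le_one_add_log N)
  rw [harmonic_eq_sum_Icc]
  push_cast
  exact sum_congr rfl fun x _ => one_div _

lemma le_hs (N : ℕ) : Real.log N ≤ hs N := by
  rcases Nat.eq_zero_or_pos N with rfl | hN
  · simp [hs]
  refine le_trans ?_ ((log_add_one_le_harmonic N).trans (le_of_eq ?_))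
  · refine Real.log_le_log (by exact_mod_cast hN) ?_
    push_cast
    linarith
  · rw [harmonic_eq_sum_Icc]
    unfold hs
    push_cast
    exact sum_congr rfl fun x _ => (one_div _).symm

lemma hs_tendsto : Tendsto hs atTop atTop :=
  tendsto_atTop_mono le_hs (Real.tendsto_log_atTop.comp tendsto_natCast_atTop_atTop)

/-- a set of sequences which are disjoint from `u` on short windows, uniformly, on logarithmic average -/
def Momo (u : ℕ → ℂ) (W : Set (ℕ → ℂ)) : Prop := ∀ ε : ℝ, 0 < ε → ∃ H₀ : ℕ, ∀ H ≥ H₀, ∃ N₀ : ℕ, ∀ N ≥ N₀,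
  ∀ w : ℕ → ℕ → ℂ, (∀ n, w n ∈ W ∨ w n = 0) →
    ∑ n ∈ Icc 1 N, (1 / (n : ℝ)) * ‖∑ h ∈ Icc 1 H, u (n + h) * w n h‖ ≤ ε * H * hs N

/-- one step of the shift -/
lemma shift_one (a : ℕ → ℂ) (A : ℝ) (ha : ∀ n, ‖a n‖ ≤ A) (N : ℕ) :
    ‖∑ n ∈ Icc 1 N, (1 / (n : ℂ)) * a (n + 1) - ∑ n ∈ Icc 1 N, (1 / (n : ℂ)) * a n‖ ≤ 3 * A := by
  have hA : 0 ≤ A := (norm_nonneg _).trans (ha 0)
  rcases Nat.eq_zero_or_pos N with rfl | hN
  · simp only [Icc_eq_empty_of_lt Nat.zero_lt_one, sum_empty, sub_zero, norm_zero]; linarith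
  have key : ∀ N : ℕ, 1 ≤ N → ∑ n ∈ Icc 1 N, (1 / (n : ℂ)) * a (n + 1) - ∑ n ∈ Icc 1 N, (1 / (n : ℂ)) * a n =
      (1 / (N : ℂ)) * a (N + 1) - a 1 + ∑ n ∈ Ico 1 N, ((1 / (n : ℂ)) - 1 / ((n + 1 : ℕ) : ℂ)) * a (n + 1) := by
    intro N hN
    induction N, hN using Nat.le_induction with
    | base => simp
    | succ N hN ih =>
      rw [sum_Icc_succ_top (by omega), sum_Icc_succ_top (by omega), sum_Ico_succ_top hN]
      linear_combination ih
  rw [key N hN]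
  have h1 : ‖∑ n ∈ Ico 1 N, ((1 / (n : ℂ)) - 1 / ((n + 1 : ℕ) : ℂ)) * a (n + 1)‖ ≤ A := by
    refine (norm_sum_le _ _).trans ?_
    have h2 : ∀ n ∈ Ico 1 N, ‖((1 / (n : ℂ)) - 1 / ((n + 1 : ℕ) : ℂ)) * a (n + 1)‖ ≤
        (1 / (n : ℝ) - 1 / ((n + 1 : ℕ) : ℝ)) * A := by
      intro n hn
      have hn1 : (0 : ℝ) < n := by exact_mod_cast (mem_Ico.1 hn).1
      rw [norm_mul]
      refine mul_le_mul (le_of_eq ?_) (ha _) (norm_nonneg _) ?_
      · have : (1 / (n : ℂ)) - 1 / ((n + 1 : ℕ) : ℂ) = ((1 / (n : ℝ) - 1 / ((n + 1 : ℕ) : ℝ) : ℝ) : ℂ) := by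
          push_cast; ring
        rw [this, Complex.norm_real, Real.norm_of_nonneg]
        rw [sub_nonneg]
        apply one_div_le_one_div_of_le hn1
        push_cast; linarith
      · rw [sub_nonneg]
        apply one_div_le_one_div_of_le hn1
        push_cast; linarith
    refine (sum_le_sum h2).trans ?_
    rw [← sum_mul]
    have h3 : ∑ n ∈ Ico 1 N, (1 / (n : ℝ) - 1 / ((n + 1 : ℕ) : ℝ)) = 1 - 1 / (N : ℝ) := by
      clear h2 key
      induction N, hN using Nat.le_induction with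
      | base => simp
      | succ N hN ih =>
        rw [sum_Ico_succ_top hN, ih]; ring
    rw [h3]
    have : (0 : ℝ) ≤ 1 / (N : ℝ) := by positivity
    nlinarith
  have h4 : ‖(1 / (N : ℂ)) * a (N + 1)‖ ≤ A := by
    rw [norm_mul, norm_div, norm_one, Complex.norm_natCast]
    have hN1 : (1 : ℝ) ≤ N := by exact_mod_cast hN
    have : 1 / (N : ℝ) ≤ 1 := by rw [div_le_one (by linarith)]; exact hN1
    calc 1 / (N : ℝ) * ‖a (N + 1)‖ ≤ 1 * A := mul_le_mul this (ha _) (norm_nonneg _) zero_le_one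
      _ = A := one_mul _
  refine (norm_add_le _ _).trans ?_
  have := norm_sub_le ((1 / (N : ℂ)) * a (N + 1)) (a 1)
  have := ha 1
  linarith

lemma shift (a : ℕ → ℂ) (A : ℝ) (ha : ∀ n, ‖a n‖ ≤ A) (N h : ℕ) :
    ‖∑ n ∈ Icc 1 N, (1 / (n : ℂ)) * a (n + h) - ∑ n ∈ Icc 1 N, (1 / (n : ℂ)) * a n‖ ≤ 3 * A * h := by
  induction h with
  | zero => simp
  | succ h ih =>
    have h1 := shift_one (fun n => a (n + h)) A (fun n => ha _) N
    have e : ∑ n ∈ Icc 1 N, (1 / (n : ℂ)) * a (n + (h + 1)) - ∑ n ∈ Icc 1 N, (1 / (n : ℂ)) * a n =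
        (∑ n ∈ Icc 1 N, (1 / (n : ℂ)) * a (n + 1 + h) - ∑ n ∈ Icc 1 N, (1 / (n : ℂ)) * a (n + h)) +
        (∑ n ∈ Icc 1 N, (1 / (n : ℂ)) * a (n + h) - ∑ n ∈ Icc 1 N, (1 / (n : ℂ)) * a n) := by
      simp_rw [show ∀ n, n + (h + 1) = n + 1 + h from fun n => by ring]
      ring
    rw [e]
    refine (norm_add_le _ _).trans ?_
    push_cast
    linarith

/-- passing to windows -/
lemma window (a : ℕ → ℂ) (A : ℝ) (ha : ∀ n, ‖a n‖ ≤ A) (N H : ℕ) :
    H * ‖∑ n ∈ Icc 1 N, (1 / (n : ℂ)) * a n‖ ≤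
      ∑ n ∈ Icc 1 N, (1 / (n : ℝ)) * ‖∑ h ∈ Icc 1 H, a (n + h)‖ + 3 * A * H ^ 2 := by
  have hA : 0 ≤ A := (norm_nonneg _).trans (ha 0)
  have e : (H : ℂ) * ∑ n ∈ Icc 1 N, (1 / (n : ℂ)) * a n =
      ∑ n ∈ Icc 1 N, (1 / (n : ℂ)) * ∑ h ∈ Icc 1 H, a (n + h) -
      ∑ h ∈ Icc 1 H, (∑ n ∈ Icc 1 N, (1 / (n : ℂ)) * a (n + h) - ∑ n ∈ Icc 1 N, (1 / (n : ℂ)) * a n) := by
    rw [sum_sub_distrib, sum_const, Nat.card_Icc, nsmul_eq_mul]
    have : ∑ n ∈ Icc 1 N, (1 / (n : ℂ)) * ∑ h ∈ Icc 1 H, a (n + h) =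
        ∑ h ∈ Icc 1 H, ∑ n ∈ Icc 1 N, (1 / (n : ℂ)) * a (n + h) := by
      simp_rw [mul_sum]; rw [sum_comm]
    rw [this]
    push_cast [Nat.add_sub_cancel]
    ring
  have h1 : (H : ℝ) * ‖∑ n ∈ Icc 1 N, (1 / (n : ℂ)) * a n‖ = ‖(H : ℂ) * ∑ n ∈ Icc 1 N, (1 / (n : ℂ)) * a n‖ := by
    rw [norm_mul, Complex.norm_natCast]
  rw [h1, e]
  refine (norm_sub_le _ _).trans (add_le_add ?_ ?_)
  · refine (norm_sum_le _ _).trans (le_of_eq (sum_congr rfl fun n _ => ?_))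
    rw [norm_mul, norm_div, norm_one, Complex.norm_natCast]
  · refine (norm_sum_le _ _).trans ?_
    calc _ ≤ ∑ h ∈ Icc 1 H, 3 * A * H := by
          refine sum_le_sum fun h hh => (shift a A ha N h).trans ?_
          have : (h : ℝ) ≤ H := by exact_mod_cast (mem_Icc.1 hh).2
          exact mul_le_mul_of_nonneg_left this (by linarith)
      _ = 3 * A * H ^ 2 := by
          rw [sum_const, Nat.card_Icc, nsmul_eq_mul, Nat.add_sub_cancel]; ring

section emp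

variable {X : Type*} [MeasurableSpace X]

/-- logarithmic empirical measure -/
noncomputable def emp (N : ℕ) (p : ℕ → X) : Measure X :=
  ∑ n ∈ Icc 1 N, ENNReal.ofReal ((1 / (n : ℝ)) / hs N) • Measure.dirac (p n)

lemma emp_apply (N : ℕ) (p : ℕ → X) {O : Set X} (hO : MeasurableSet O) :
    emp N p O = ∑ n ∈ Icc 1 N, ENNReal.ofReal ((1 / (n : ℝ)) / hs N) * O.indicator 1 (p n) := by
  unfold emp
  rw [Measure.finsetSum_apply]
  exact sum_congr rfl fun n _ => by rw [Measure.smul_apply, Measure.dirac_apply' _ hO, smul_eq_mul]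

lemma emp_prob {N : ℕ} (hN : 1 ≤ N) (p : ℕ → X) : IsProbabilityMeasure (emp N p) := by
  constructor
  rw [emp_apply _ _ MeasurableSet.univ]
  simp only [Set.indicator_univ, Pi.one_apply, mul_one]
  rw [← ENNReal.ofReal_sum_of_nonneg (fun n _ => div_nonneg (by positivity) (hs_nonneg N)), ← sum_div]
  rw [show ∑ n ∈ Icc 1 N, 1 / (n : ℝ) = hs N from rfl, div_self (hs_pos hN).ne', ENNReal.ofReal_one]

lemma emp_int {E : Type*} [NormedAddCommGroup E] [NormedSpace ℝ E] [CompleteSpace E] (N : ℕ) (p : ℕ → X) {g : X → E}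
    (hg : StronglyMeasurable g) : ∫ x, g x ∂(emp N p) = (1 / hs N) • ∑ n ∈ Icc 1 N, (1 / (n : ℝ)) • g (p n) := by
  unfold emp
  rw [integral_finsetSum_measure]
  · rw [smul_sum]
    refine sum_congr rfl fun n _ => ?_
    rw [integral_smul_measure, integral_dirac' _ _ hg, smul_smul,
      ENNReal.toReal_ofReal (div_nonneg (by positivity) (hs_nonneg N))]
    congr 1
    ring
  · intro n _
    exact (integrable_dirac' hg (by simp)).smul_measure ENNReal.ofReal_ne_top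

end emp

end Pool.Agent.Helper44K9.FS
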