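import Pool.Agent.Helper44K9.FS.Crit

/-!
# Logarithmic disjointness of an orbit from a bounded sequence, by windows that are typical for the limit measures
-/

set_option autoImplicit false

namespace Pool.Agent.Helper44K9.FS

open Finset MeasureTheory Filter Topology

variable {X : Type*} [MetricSpace X] [MeasurableSpace X]

/-- cluster points of the logarithmic empirical measures -/
def LogClu (T : X → X) (x : X) (ν : Measure X) : Prop :=
  ∀ (F : Finset C(X, ℂ)) (ε : ℝ), 0 < ε → ∀ N₀ : ℕ, ∃ N ≥ N₀, ∀ g ∈ F,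
    ‖(1 / (Real.log (N : ℝ) : ℂ)) * ∑ n ∈ Icc 1 N, g (T^[n] x) / (n : ℂ) - ∫ y, g y ∂ν‖ < ε

lemma ratio : Tendsto (fun N : ℕ => hs N / Real.log N) atTop (𝓝 1) := by
  have h1 : Tendsto (fun N : ℕ => 1 + 1 / Real.log N) atTop (𝓝 1) := by
    have h2 : Tendsto (fun N : ℕ => Real.log N) atTop atTop :=
      Real.tendsto_log_atTop.comp tendsto_natCast_atTop_atTop
    have h3 := h2.inv_tendsto_atTop
    have h4 : Tendsto (fun N : ℕ => 1 + (Real.log N)⁻¹) atTop (𝓝 (1 + 0)) := tendsto_const_nhds.add h3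
    simpa [one_div] using h4
  refine tendsto_of_tendsto_of_tendsto_of_le_of_le' tendsto_const_nhds h1 ?_ ?_
  · filter_upwards [eventually_ge_atTop 3] with N hN
    have hl : 0 < Real.log N := Real.log_pos (by exact_mod_cast (by omega : 1 < N))
    rw [le_div_iff₀ hl, one_mul]
    exact le_hs N
  · filter_upwards [eventually_ge_atTop 3] with N hN
    have hl : 0 < Real.log N := Real.log_pos (by exact_mod_cast (by omega : 1 < N))
    rw [div_le_iff₀ hl, add_mul, one_mul, one_div, inv_mul_cancel₀ hl.ne']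
    linarith [hs_le N]

variable [CompactSpace X] [BorelSpace X] {T : X → X}

/-- the limit measure -/
theorem exists_nu (hT : Continuous T) (x : X) {𝒱 : Ultrafilter ℕ} (h𝒱 : (𝒱 : Filter ℕ) ≤ atTop) :
    ∃ (P : ℕ → ProbabilityMeasure X) (ν : ProbabilityMeasure X),
      (∀ᶠ N in (𝒱 : Filter ℕ), (P N : Measure X) = emp N (fun n => T^[n] x)) ∧ Tendsto P 𝒱 (𝓝 ν) ∧
      MeasurePreserving T (ν : Measure X) (ν : Measure X) ∧ LogClu T x (ν : Measure X) := by
  classical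
  have hex : ∀ N, ∃ P : ProbabilityMeasure X, 1 ≤ N → (P : Measure X) = emp N (fun n => T^[n] x) := by
    intro N
    by_cases h : 1 ≤ N
    · exact ⟨⟨emp N (fun n => T^[n] x), emp_prob h _⟩, fun _ => rfl⟩
    · exact ⟨⟨Measure.dirac x, inferInstance⟩, fun h' => absurd h' h⟩
  choose P hP using hex
  have hP1 : ∀ᶠ N in (𝒱 : Filter ℕ), 1 ≤ N ∧ (P N : Measure X) = emp N (fun n => T^[n] x) := by
    filter_upwards [h𝒱 (eventually_ge_atTop 1)] with j hj
    exact ⟨hj, hP j hj⟩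
  obtain ⟨ν, -, hν⟩ := isCompact_univ.ultrafilter_le_nhds (𝒱.map P) (by simp)
  have hlim : Tendsto P 𝒱 (𝓝 ν) := hν
  have h1 : ∀ g : C(X, ℂ), Tendsto (fun N : ℕ => (1 / (hs N : ℂ)) * ∑ n ∈ Icc 1 N, (1 / (n : ℂ)) * g (T^[n] x)) 𝒱
      (𝓝 (∫ x, g x ∂(ν : Measure X))) := by
    intro g
    have h2 := (ProbabilityMeasure.tendsto_iff_forall_integral_rclike_tendsto ℂ).1 hlim
      (BoundedContinuousFunction.mkOfCompact g)
    refine h2.congr' ?_
    filter_upwards [hP1] with N hN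
    rw [hN.2]
    show ∫ x, g x ∂(emp N (fun n => T^[n] x)) = _
    rw [emp_int _ _ g.continuous.stronglyMeasurable, Complex.real_smul]
    push_cast
    congr 1
    refine sum_congr rfl fun n _ => ?_
    rw [Complex.real_smul]
    push_cast
    rfl
  refine ⟨P, ν, hP1.mono fun N h => h.2, hlim, ⟨hT.measurable, ?_⟩, ?_⟩
  · have : IsProbabilityMeasure (Measure.map T (ν : Measure X)) := Measure.isProbabilityMeasure_map hT.aemeasurable
    refine ext_of_forall_integral_eq_of_IsFiniteMeasure fun f => ?_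
    rw [integral_map hT.aemeasurable f.continuous.aestronglyMeasurable]
    -- pass to complex functions
    set g : C(X, ℂ) := ⟨fun x => (f x : ℂ), Complex.continuous_ofReal.comp f.continuous⟩ with hg
    set g' : C(X, ℂ) := ⟨fun x => (f (T x) : ℂ), Complex.continuous_ofReal.comp (f.continuous.comp hT)⟩ with hg'
    have h2 := h1 g
    have h3 := h1 g'
    have h4 : Tendsto (fun N : ℕ => (1 / (hs N : ℂ)) * ∑ n ∈ Icc 1 N, (1 / (n : ℂ)) * g' (T^[n] x) -
        (1 / (hs N : ℂ)) * ∑ n ∈ Icc 1 N, (1 / (n : ℂ)) * g (T^[n] x)) 𝒱 (𝓝 0) := by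
      rw [tendsto_zero_iff_norm_tendsto_zero]
      have h5 : Tendsto (fun N : ℕ => 3 * ‖g‖ / hs N) 𝒱 (𝓝 0) :=
        (tendsto_const_nhds.div_atTop hs_tendsto).mono_left h𝒱
      refine squeeze_zero (fun _ => norm_nonneg _) (fun N => ?_) h5
      rw [← mul_sub, norm_mul, norm_div, norm_one, Complex.norm_real, Real.norm_of_nonneg (hs_nonneg N)]
      have e1 : ∀ n, g' (T^[n] x) = g (T^[n + 1] x) := by
        intro n
        rw [Function.iterate_succ_apply']
        rfl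
      simp_rw [e1]
      have h6 := shift_one (fun n => g (T^[n] x)) ‖g‖ (fun n => g.norm_coe_le_norm _) N
      rw [div_mul_eq_mul_div, one_mul]
      exact div_le_div_of_nonneg_right h6 (hs_nonneg N)
    have h5 : Tendsto (fun N : ℕ => (1 / (hs N : ℂ)) * ∑ n ∈ Icc 1 N, (1 / (n : ℂ)) * g' (T^[n] x)) 𝒱
        (𝓝 (∫ x, g x ∂(ν : Measure X))) := by
      have h6 := h4.add h2
      rw [zero_add] at h6
      refine h6.congr fun j => ?_
      ring
    have h6 := tendsto_nhds_unique h3 h5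
    have e1 : ∫ x, g' x ∂(ν : Measure X) = ((∫ x, f (T x) ∂(ν : Measure X) : ℝ) : ℂ) := by
      rw [← integral_complex_ofReal]
      rfl
    have e2 : ∫ x, g x ∂(ν : Measure X) = ((∫ x, f x ∂(ν : Measure X) : ℝ) : ℂ) := by
      rw [← integral_complex_ofReal]
      rfl
    rw [e1, e2] at h6
    exact Complex.ofReal_injective h6
  · intro F ε hε N₀
    have h2 : ∀ g ∈ F, ∀ᶠ N : ℕ in (𝒱 : Filter ℕ),
        ‖(1 / (Real.log (N : ℝ) : ℂ)) * ∑ n ∈ Icc 1 N, g (T^[n] x) / (n : ℂ) - ∫ y, g y ∂(ν : Measure X)‖ < ε := by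
      intro g _
      have h3 : Tendsto (fun N : ℕ => ((hs N / Real.log N : ℝ) : ℂ) * ((1 / (hs N : ℂ)) *
          ∑ n ∈ Icc 1 N, (1 / (n : ℂ)) * g (T^[n] x))) 𝒱 (𝓝 (((1 : ℝ) : ℂ) * ∫ x, g x ∂(ν : Measure X))) :=
        (((Complex.continuous_ofReal.tendsto 1).comp ratio).mono_left h𝒱).mul (h1 g)
      rw [Complex.ofReal_one, one_mul] at h3
      have h4 : Tendsto (fun N : ℕ => (1 / (Real.log (N : ℝ) : ℂ)) * ∑ n ∈ Icc 1 N, g (T^[n] x) / (n : ℂ)) 𝒱
          (𝓝 (∫ x, g x ∂(ν : Measure X))) := by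
        refine h3.congr' ?_
        filter_upwards [h𝒱 (eventually_ge_atTop 1)] with N hN
        have h5 : (hs N : ℂ) ≠ 0 := by exact_mod_cast (hs_pos hN).ne'
        have h6 : ∑ n ∈ Icc 1 N, g (T^[n] x) / (n : ℂ) = ∑ n ∈ Icc 1 N, (1 / (n : ℂ)) * g (T^[n] x) :=
          sum_congr rfl fun n _ => by ring
        rw [h6]
        push_cast
        field_simp
      have h5 := (tendsto_iff_norm_sub_tendsto_zero.1 h4).eventually (gt_mem_nhds hε)
      exact h5
    have h3 : ∀ᶠ N : ℕ in (𝒱 : Filter ℕ), ∀ g ∈ F,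
        ‖(1 / (Real.log (N : ℝ) : ℂ)) * ∑ n ∈ Icc 1 N, g (T^[n] x) / (n : ℂ) - ∫ y, g y ∂(ν : Measure X)‖ < ε :=
      (eventually_all_finset F).2 h2
    obtain ⟨N, h4, h5⟩ := (h3.and (h𝒱 (eventually_ge_atTop N₀))).exists
    exact ⟨N, h5, h4⟩

/-- **criterion** -/
theorem crit (hT : Continuous T) (x : X) (u : ℕ → ℂ) (hu : ∀ n, ‖u n‖ ≤ 1) (f : C(X, ℂ))
    (h : ∀ ν : Measure X, IsProbabilityMeasure ν → MeasurePreserving T ν ν → LogClu T x ν → ∀ ε : ℝ, 0 < ε →
      ∃ W : Set (ℕ → ℂ), Momo u W ∧ ∀ H : ℕ, 1 ≤ H →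
        ENNReal.ofReal (1 - ε) ≤ ν {y | ∃ w ∈ W, ∑ h ∈ Icc 1 H, ‖f (T^[h] y) - w h‖ < ε * H}) :
    Tendsto (fun N : ℕ => (1 / (Real.log (N : ℝ) : ℂ)) * ∑ n ∈ Icc 1 N, f (T^[n] x) * u n / (n : ℂ)) atTop (𝓝 0) := by
  classical
  rw [tendsto_iff_ultrafilter]
  intro 𝒱 h𝒱
  obtain ⟨P, ν, hP, hlim, hinv, hclu⟩ := exists_nu hT x h𝒱
  rw [Metric.tendsto_nhds]
  intro δ hδ
  set A : ℝ := ‖f‖ with hA
  have hA0 : 0 ≤ A := norm_nonneg _
  set ε : ℝ := min (δ / (16 * (1 + A))) (1 / 4) with hεdef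
  have hε : 0 < ε := lt_min (by positivity) (by norm_num)
  have hε4 : ε ≤ 1 / 4 := min_le_right _ _
  have hεδ : ε * (16 * (1 + A)) ≤ δ := by
    have := min_le_left (δ / (16 * (1 + A))) (1 / 4)
    rw [← hεdef, le_div_iff₀ (by positivity)] at this
    exact this
  obtain ⟨W, hW, hWν⟩ := h (ν : Measure X) inferInstance hinv hclu ε hε
  obtain ⟨H₀, hH₀⟩ := hW ε hε
  set H : ℕ := max H₀ 1 with hH
  have hH1 : 1 ≤ H := le_max_right _ _
  have hHr : (1 : ℝ) ≤ H := by exact_mod_cast hH1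
  obtain ⟨N₁, hN₁⟩ := hH₀ H (le_max_left _ _)
  set O : Set X := {y | ∃ w ∈ W, ∑ h ∈ Icc 1 H, ‖f (T^[h] y) - w h‖ < ε * H} with hO
  have hOo : IsOpen O := by
    have : O = ⋃ w ∈ W, {y | ∑ h ∈ Icc 1 H, ‖f (T^[h] y) - w h‖ < ε * H} := by
      ext y; simp [hO]
    rw [this]
    refine isOpen_biUnion fun w _ => isOpen_lt ?_ continuous_const
    exact continuous_finsetSum _ fun h _ => ((f.continuous.comp (hT.iterate h)).sub continuous_const).norm
  have hνO : ENNReal.ofReal (1 - 2 * ε) < (ν : Measure X) O :=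
    lt_of_lt_of_le ((ENNReal.ofReal_lt_ofReal_iff (by linarith)).2 (by linarith)) (hWν H hH1)
  have hev : ∀ᶠ N in (𝒱 : Filter ℕ), ENNReal.ofReal (1 - 2 * ε) < (P N : Measure X) O :=
    eventually_lt_of_lt_liminf (lt_of_lt_of_le hνO (ProbabilityMeasure.le_liminf_measure_open_of_tendsto hlim hOo))
  have hlog : Tendsto (fun N : ℕ => 3 * A * H / Real.log N) 𝒱 (𝓝 0) :=
    (tendsto_const_nhds.div_atTop (Real.tendsto_log_atTop.comp tendsto_natCast_atTop_atTop)).mono_left h𝒱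
  have hlog2 : ∀ᶠ N in (𝒱 : Filter ℕ), 3 * A * H / Real.log (N : ℕ) < δ / 4 :=
    hlog.eventually (gt_mem_nhds (by positivity))
  filter_upwards [hev, hP, h𝒱 (eventually_ge_atTop (max N₁ 3)), hlog2] with N hN1 hN2 hN3 hN4
  have hNN₁ : N₁ ≤ N := le_trans (le_max_left _ _) hN3
  have hN33 : 3 ≤ N := le_trans (le_max_right _ _) hN3
  have hNr : (3 : ℝ) ≤ N := by exact_mod_cast hN33
  have hl : 1 ≤ Real.log N := by
    rw [Real.le_log_iff_exp_le (by linarith)]
    linarith [Real.exp_one_lt_d9]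
  have hh := hs_le N
  have hh0 : 0 < hs N := hs_pos (by omega)
  -- the times outside of `O`
  have hout : ∑ n ∈ (Icc 1 N).filter (fun n => T^[n] x ∉ O), 1 / (n : ℝ) ≤ 2 * ε * hs N := by
    rw [hN2, emp_apply _ _ hOo.measurableSet] at hN1
    have e1 : ∑ n ∈ Icc 1 N, ENNReal.ofReal ((1 / (n : ℝ)) / hs N) * O.indicator 1 (T^[n] x) =
        ENNReal.ofReal (∑ n ∈ (Icc 1 N).filter (fun n => T^[n] x ∈ O), (1 / (n : ℝ)) / hs N) := by
      rw [ENNReal.ofReal_sum_of_nonneg (fun n _ => div_nonneg (by positivity) hh0.le), sum_filter]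
      refine sum_congr rfl fun n _ => ?_
      by_cases hn : T^[n] x ∈ O <;> simp [hn]
    rw [e1] at hN1
    have h2 : 1 - 2 * ε < ∑ n ∈ (Icc 1 N).filter (fun n => T^[n] x ∈ O), (1 / (n : ℝ)) / hs N := by
      by_contra hcon
      exact absurd hN1 (not_lt.2 (ENNReal.ofReal_le_ofReal (not_lt.1 hcon)))
    rw [← sum_div, lt_div_iff₀ hh0] at h2
    have h3 : hs N = ∑ n ∈ (Icc 1 N).filter (fun n => T^[n] x ∈ O), 1 / (n : ℝ) +
        ∑ n ∈ (Icc 1 N).filter (fun n => T^[n] x ∉ O), 1 / (n : ℝ) :=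
      (sum_filter_add_sum_filter_not _ _ _).symm
    linarith
  -- the choice of the sequences
  have hch : ∀ n, ∃ w : ℕ → ℂ, (w ∈ W ∨ w = 0) ∧
      ∑ h ∈ Icc 1 H, ‖f (T^[h] (T^[n] x)) - w h‖ ≤ ε * H + (if T^[n] x ∉ O then A * H else 0) := by
    intro n
    by_cases hn : T^[n] x ∈ O
    · obtain ⟨w, hw, hw2⟩ := hn
      have hn' : T^[n] x ∈ O := ⟨w, hw, hw2⟩
      refine ⟨w, Or.inl hw, ?_⟩
      rw [if_neg (not_not.2 hn')]
      linarith
    · refine ⟨0, Or.inr rfl, ?_⟩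
      rw [if_pos hn]
      have : ∑ h ∈ Icc 1 H, ‖f (T^[h] (T^[n] x)) - (0 : ℕ → ℂ) h‖ ≤ ∑ h ∈ Icc 1 H, A := by
        refine sum_le_sum fun h _ => ?_
        rw [Pi.zero_apply, sub_zero]
        exact f.norm_coe_le_norm _
      rw [sum_const, Nat.card_Icc, nsmul_eq_mul, Nat.add_sub_cancel] at this
      have h3 : 0 ≤ ε * H := by positivity
      linarith
  choose w hw1 hw2 using hch
  have hM := hN₁ N hNN₁ w hw1
  set a : ℕ → ℂ := fun n => f (T^[n] x) * u n with ha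
  have haA : ∀ n, ‖a n‖ ≤ A := by
    intro n
    rw [ha]
    show ‖f (T^[n] x) * u n‖ ≤ A
    rw [norm_mul]
    calc _ ≤ A * 1 := mul_le_mul (f.norm_coe_le_norm _) (hu n) (norm_nonneg _) hA0
      _ = A := mul_one _
  have hwin := window a A haA N H
  have hterm : ∀ n, ‖∑ h ∈ Icc 1 H, a (n + h)‖ ≤ ‖∑ h ∈ Icc 1 H, u (n + h) * w n h‖ +
      (ε * H + (if T^[n] x ∉ O then A * H else 0)) := by
    intro n
    have e1 : ∑ h ∈ Icc 1 H, a (n + h) = ∑ h ∈ Icc 1 H, u (n + h) * w n h +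
        ∑ h ∈ Icc 1 H, u (n + h) * (f (T^[h] (T^[n] x)) - w n h) := by
      rw [← sum_add_distrib]
      refine sum_congr rfl fun h _ => ?_
      rw [ha]
      show f (T^[n + h] x) * u (n + h) = _
      rw [add_comm n h, Function.iterate_add_apply]
      ring
    rw [e1]
    refine (norm_add_le _ _).trans (add_le_add le_rfl ?_)
    refine (norm_sum_le _ _).trans (le_trans (sum_le_sum fun h _ => ?_) (hw2 n))
    rw [norm_mul]
    calc _ ≤ 1 * ‖f (T^[h] (T^[n] x)) - w n h‖ := mul_le_mul_of_nonneg_right (hu _) (norm_nonneg _)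
      _ = _ := one_mul _
  have hsum : ∑ n ∈ Icc 1 N, (1 / (n : ℝ)) * ‖∑ h ∈ Icc 1 H, a (n + h)‖ ≤
      ε * H * hs N + (ε * H * hs N + A * H * (2 * ε * hs N)) := by
    calc _ ≤ ∑ n ∈ Icc 1 N, (1 / (n : ℝ)) * (‖∑ h ∈ Icc 1 H, u (n + h) * w n h‖ +
          (ε * H + (if T^[n] x ∉ O then A * H else 0))) :=
          sum_le_sum fun n _ => mul_le_mul_of_nonneg_left (hterm n) (by positivity)
      _ = ∑ n ∈ Icc 1 N, (1 / (n : ℝ)) * ‖∑ h ∈ Icc 1 H, u (n + h) * w n h‖ +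
          (ε * H * hs N + A * H * ∑ n ∈ (Icc 1 N).filter (fun n => T^[n] x ∉ O), 1 / (n : ℝ)) := by
          simp only [mul_add, sum_add_distrib]
          congr 1
          congr 1
          · rw [← sum_mul]; unfold hs; ring
          · rw [mul_sum, sum_filter]
            refine sum_congr rfl fun n _ => ?_
            split_ifs <;> ring
      _ ≤ _ := by
          refine add_le_add hM (add_le_add le_rfl ?_)
          exact mul_le_mul_of_nonneg_left hout (by positivity)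
  have hS : ‖∑ n ∈ Icc 1 N, (1 / (n : ℂ)) * a n‖ ≤ 2 * ε * (1 + A) * hs N + 3 * A * H := by
    have h1 : (H : ℝ) * ‖∑ n ∈ Icc 1 N, (1 / (n : ℂ)) * a n‖ ≤ H * (2 * ε * (1 + A) * hs N + 3 * A * H) := by
      refine hwin.trans ((add_le_add hsum le_rfl).trans (le_of_eq ?_))
      ring
    exact le_of_mul_le_mul_left h1 (by linarith)
  rw [dist_zero_right, norm_mul, norm_div, norm_one, Complex.norm_real, Real.norm_of_nonneg (by linarith)]
  have e2 : ∑ n ∈ Icc 1 N, f (T^[n] x) * u n / (n : ℂ) = ∑ n ∈ Icc 1 N, (1 / (n : ℂ)) * a n :=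
    sum_congr rfl fun n _ => by rw [ha]; ring
  rw [e2]
  have hl0 : 0 < Real.log N := by linarith
  rw [div_lt_iff₀ hl0] at hN4
  rw [div_mul_eq_mul_div, one_mul, div_lt_iff₀ hl0]
  have h3 : hs N ≤ 2 * Real.log N := by linarith
  have h4 : 2 * ε * (1 + A) * hs N ≤ δ / 4 * Real.log N := by
    calc 2 * ε * (1 + A) * hs N ≤ 2 * ε * (1 + A) * (2 * Real.log N) :=
          mul_le_mul_of_nonneg_left h3 (by positivity)
      _ = (ε * (16 * (1 + A))) / 4 * Real.log N := by ring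
      _ ≤ δ / 4 * Real.log N := by
          refine mul_le_mul_of_nonneg_right ?_ hl0.le
          linarith
  have h5 : 0 < δ * Real.log N := by positivity
  linarith

end Pool.Agent.Helper44K9.FS
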