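import Pool.Agent.Helper44K9.FS.Crit2

/-!
# Disjointness at most scales
-/

set_option autoImplicit false

namespace Pool.Agent.Helper44K9.FS

open Finset MeasureTheory Filter Topology

/-- the core of the criterion: windows of a suitable length, along an ultrafilter -/
theorem core {X : Type*} [MetricSpace X] [MeasurableSpace X] [CompactSpace X] [BorelSpace X] {T : X → X}
    (hT : Continuous T) (x : X) (u : ℕ → ℂ) (hu : ∀ n, ‖u n‖ ≤ 1) (f : C(X, ℂ))
    (h : ∀ ν : Measure X, IsProbabilityMeasure ν → MeasurePreserving T ν ν → LogClu T x ν → ∀ ε : ℝ, 0 < ε →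
      ∃ W : Set (ℕ → ℂ), Momo u W ∧ ∀ H : ℕ, 1 ≤ H →
        ENNReal.ofReal (1 - ε) ≤ ν {y | ∃ w ∈ W, ∑ h ∈ Icc 1 H, ‖f (T^[h] y) - w h‖ < ε * H})
    {𝒱 : Ultrafilter ℕ} (h𝒱 : (𝒱 : Filter ℕ) ≤ atTop) (δ : ℝ) (hδ : 0 < δ) :
    ∃ H : ℕ, 1 ≤ H ∧ ∀ᶠ N : ℕ in (𝒱 : Filter ℕ),
      ∑ n ∈ Icc 1 N, (1 / (n : ℝ)) * ‖∑ h ∈ Icc 1 H, f (T^[n + h] x) * u (n + h)‖ ≤ δ * H * hs N := by
  classical
  obtain ⟨P, ν, hP, hlim, hinv, hclu⟩ := exists_nu hT x h𝒱
  set A : ℝ := ‖f‖ with hA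
  have hA0 : 0 ≤ A := norm_nonneg _
  set ε : ℝ := min (δ / (2 * (1 + A))) (1 / 4) with hεdef
  have hε : 0 < ε := lt_min (by positivity) (by norm_num)
  have hε4 : ε ≤ 1 / 4 := min_le_right _ _
  have hεδ : ε * (2 * (1 + A)) ≤ δ := by
    have := min_le_left (δ / (2 * (1 + A))) (1 / 4)
    rw [← hεdef, le_div_iff₀ (by positivity)] at this
    exact this
  obtain ⟨W, hW, hWν⟩ := h (ν : Measure X) inferInstance hinv hclu ε hε
  obtain ⟨H₀, hH₀⟩ := hW ε hε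
  set H : ℕ := max H₀ 1 with hH
  have hH1 : 1 ≤ H := le_max_right _ _
  have hHr : (1 : ℝ) ≤ H := by exact_mod_cast hH1
  obtain ⟨N₁, hN₁⟩ := hH₀ H (le_max_left _ _)
  set O : Set X := {y | ∃ w ∈ W, ∑ h ∈ Icc 1 H, ‖f (T^[h] y) - w h‖ < ε * H} with hO
  have hOo : IsOpen O := by
    have : O = ⋃ w ∈ W, {y | ∑ h ∈ Icc 1 H, ‖f (T^[h] y) - w h‖ < ε * H} := by
      ext y; simp [hO]
    rw [this]
    refine isOpen_biUnion fun w _ => isOpen_lt ?_ continuous_const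
    exact continuous_finsetSum _ fun h _ => ((f.continuous.comp (hT.iterate h)).sub continuous_const).norm
  have hνO : ENNReal.ofReal (1 - 2 * ε) < (ν : Measure X) O :=
    lt_of_lt_of_le ((ENNReal.ofReal_lt_ofReal_iff (by linarith)).2 (by linarith)) (hWν H hH1)
  have hev : ∀ᶠ N in (𝒱 : Filter ℕ), ENNReal.ofReal (1 - 2 * ε) < (P N : Measure X) O :=
    eventually_lt_of_lt_liminf (lt_of_lt_of_le hνO (ProbabilityMeasure.le_liminf_measure_open_of_tendsto hlim hOo))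
  refine ⟨H, hH1, ?_⟩
  filter_upwards [hev, hP, h𝒱 (eventually_ge_atTop (max N₁ 3))] with N hN1 hN2 hN3
  have hNN₁ : N₁ ≤ N := le_trans (le_max_left _ _) hN3
  have hN33 : 3 ≤ N := le_trans (le_max_right _ _) hN3
  have hh0 : 0 < hs N := hs_pos (by omega)
  -- the times outside of `O`
  have hout : ∑ n ∈ (Icc 1 N).filter (fun n => T^[n] x ∉ O), 1 / (n : ℝ) ≤ 2 * ε * hs N := by
    rw [hN2, emp_apply _ _ hOo.measurableSet] at hN1
    have e1 : ∑ n ∈ Icc 1 N, ENNReal.ofReal ((1 / (n : ℝ)) / hs N) * O.indicator 1 (T^[n] x) =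
        ENNReal.ofReal (∑ n ∈ (Icc 1 N).filter (fun n => T^[n] x ∈ O), (1 / (n : ℝ)) / hs N) := by
      rw [ENNReal.ofReal_sum_of_nonneg (fun n _ => div_nonneg (by positivity) hh0.le), sum_filter]
      refine sum_congr rfl fun n _ => ?_
      by_cases hn : T^[n] x ∈ O <;> simp [hn]
    rw [e1] at hN1
    have h2 : 1 - 2 * ε < ∑ n ∈ (Icc 1 N).filter (fun n => T^[n] x ∈ O), (1 / (n : ℝ)) / hs N := by
      by_contra hcon
      exact absurd hN1 (not_lt.2 (ENNReal.ofReal_le_ofReal (not_lt.1 hcon)))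
    rw [← sum_div, lt_div_iff₀ hh0] at h2
    have h3 : hs N = ∑ n ∈ (Icc 1 N).filter (fun n => T^[n] x ∈ O), 1 / (n : ℝ) +
        ∑ n ∈ (Icc 1 N).filter (fun n => T^[n] x ∉ O), 1 / (n : ℝ) :=
      (sum_filter_add_sum_filter_not _ _ _).symm
    linarith
  -- the choice of the sequences
  have hch : ∀ n, ∃ w : ℕ → ℂ, (w ∈ W ∨ w = 0) ∧
      ∑ h ∈ Icc 1 H, ‖f (T^[h] (T^[n] x)) - w h‖ ≤ ε * H + (if T^[n] x ∉ O then A * H else 0) := by
    intro n
    by_cases hn : T^[n] x ∈ O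
    · obtain ⟨w, hw, hw2⟩ := hn
      have hn' : T^[n] x ∈ O := ⟨w, hw, hw2⟩
      refine ⟨w, Or.inl hw, ?_⟩
      rw [if_neg (not_not.2 hn')]
      linarith
    · refine ⟨0, Or.inr rfl, ?_⟩
      rw [if_pos hn]
      have : ∑ h ∈ Icc 1 H, ‖f (T^[h] (T^[n] x)) - (0 : ℕ → ℂ) h‖ ≤ ∑ h ∈ Icc 1 H, A := by
        refine sum_le_sum fun h _ => ?_
        rw [Pi.zero_apply, sub_zero]
        exact f.norm_coe_le_norm _
      rw [sum_const, Nat.card_Icc, nsmul_eq_mul, Nat.add_sub_cancel] at this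
      have h3 : 0 ≤ ε * H := by positivity
      linarith
  choose w hw1 hw2 using hch
  have hM := hN₁ N hNN₁ w hw1
  have hterm : ∀ n, ‖∑ h ∈ Icc 1 H, f (T^[n + h] x) * u (n + h)‖ ≤ ‖∑ h ∈ Icc 1 H, u (n + h) * w n h‖ +
      (ε * H + (if T^[n] x ∉ O then A * H else 0)) := by
    intro n
    have e1 : ∑ h ∈ Icc 1 H, f (T^[n + h] x) * u (n + h) = ∑ h ∈ Icc 1 H, u (n + h) * w n h +
        ∑ h ∈ Icc 1 H, u (n + h) * (f (T^[h] (T^[n] x)) - w n h) := by
      rw [← sum_add_distrib]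
      refine sum_congr rfl fun h _ => ?_
      rw [add_comm n h, Function.iterate_add_apply]
      ring
    rw [e1]
    refine (norm_add_le _ _).trans (add_le_add le_rfl ?_)
    refine (norm_sum_le _ _).trans (le_trans (sum_le_sum fun h _ => ?_) (hw2 n))
    rw [norm_mul]
    calc _ ≤ 1 * ‖f (T^[h] (T^[n] x)) - w n h‖ := mul_le_mul_of_nonneg_right (hu _) (norm_nonneg _)
      _ = _ := one_mul _
  calc ∑ n ∈ Icc 1 N, (1 / (n : ℝ)) * ‖∑ h ∈ Icc 1 H, f (T^[n + h] x) * u (n + h)‖ ≤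
        ∑ n ∈ Icc 1 N, (1 / (n : ℝ)) * (‖∑ h ∈ Icc 1 H, u (n + h) * w n h‖ +
          (ε * H + (if T^[n] x ∉ O then A * H else 0))) :=
          sum_le_sum fun n _ => mul_le_mul_of_nonneg_left (hterm n) (by positivity)
    _ = ∑ n ∈ Icc 1 N, (1 / (n : ℝ)) * ‖∑ h ∈ Icc 1 H, u (n + h) * w n h‖ +
          (ε * H * hs N + A * H * ∑ n ∈ (Icc 1 N).filter (fun n => T^[n] x ∉ O), 1 / (n : ℝ)) := by
          simp only [mul_add, sum_add_distrib]
          congr 1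
          congr 1
          · rw [← sum_mul]; unfold hs; ring
          · rw [mul_sum, sum_filter]
            refine sum_congr rfl fun n _ => ?_
            split_ifs <;> ring
    _ ≤ ε * H * hs N + (ε * H * hs N + A * H * (2 * ε * hs N)) := by
          refine add_le_add hM (add_le_add le_rfl ?_)
          exact mul_le_mul_of_nonneg_left hout (by positivity)
    _ = (ε * (2 * (1 + A))) * (H * hs N) := by ring
    _ ≤ δ * (H * hs N) := mul_le_mul_of_nonneg_right hεδ (by positivity)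
    _ = δ * H * hs N := by ring

/-- windows for unweighted sums -/
lemma window_ces (a : ℕ → ℂ) (A : ℝ) (ha : ∀ n, ‖a n‖ ≤ A) (N H : ℕ) :
    H * ‖∑ n ∈ Icc 1 N, a n‖ ≤ ∑ n ∈ Icc 1 N, ‖∑ h ∈ Icc 1 H, a (n + h)‖ + 2 * A * H ^ 2 := by
  have hA : 0 ≤ A := (norm_nonneg _).trans (ha 0)
  have hsh : ∀ h : ℕ, ‖∑ n ∈ Icc 1 N, a (n + h) - ∑ n ∈ Icc 1 N, a n‖ ≤ 2 * A * h := by
    intro h
    induction h with
    | zero => simp
    | succ h ih =>
      have e : ∑ n ∈ Icc 1 N, a (n + (h + 1)) - ∑ n ∈ Icc 1 N, a (n + h) = a (N + 1 + h) - a (1 + h) := by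
        clear ih
        induction N with
        | zero => simp
        | succ N ih2 =>
          rw [sum_Icc_succ_top (by omega), sum_Icc_succ_top (by omega), show N + 1 + (h + 1) = N + 1 + 1 + h by ring]
          linear_combination ih2
      have e2 : ∑ n ∈ Icc 1 N, a (n + (h + 1)) - ∑ n ∈ Icc 1 N, a n =
          (∑ n ∈ Icc 1 N, a (n + (h + 1)) - ∑ n ∈ Icc 1 N, a (n + h)) +
          (∑ n ∈ Icc 1 N, a (n + h) - ∑ n ∈ Icc 1 N, a n) := by ring
      rw [e2, e]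
      refine (norm_add_le _ _).trans ?_
      have h1 := norm_sub_le (a (N + 1 + h)) (a (1 + h))
      have h2 := ha (N + 1 + h)
      have h3 := ha (1 + h)
      push_cast
      linarith
  have e : (H : ℂ) * ∑ n ∈ Icc 1 N, a n = ∑ n ∈ Icc 1 N, ∑ h ∈ Icc 1 H, a (n + h) -
      ∑ h ∈ Icc 1 H, (∑ n ∈ Icc 1 N, a (n + h) - ∑ n ∈ Icc 1 N, a n) := by
    rw [sum_sub_distrib, sum_const, Nat.card_Icc, nsmul_eq_mul, sum_comm]
    push_cast [Nat.add_sub_cancel]
    ring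
  have h1 : (H : ℝ) * ‖∑ n ∈ Icc 1 N, a n‖ = ‖(H : ℂ) * ∑ n ∈ Icc 1 N, a n‖ := by
    rw [norm_mul, Complex.norm_natCast]
  rw [h1, e]
  refine (norm_sub_le _ _).trans (add_le_add (norm_sum_le _ _) ?_)
  refine (norm_sum_le _ _).trans ?_
  calc _ ≤ ∑ h ∈ Icc 1 H, 2 * A * H := by
        refine sum_le_sum fun h hh => (hsh h).trans ?_
        have : (h : ℝ) ≤ H := by exact_mod_cast (mem_Icc.1 hh).2
        exact mul_le_mul_of_nonneg_left this (by linarith)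
    _ = 2 * A * H ^ 2 := by
        rw [sum_const, Nat.card_Icc, nsmul_eq_mul, Nat.add_sub_cancel]; ring

/-- the tail of the sum of the inverse squares -/
lemma inv_sq (n X : ℕ) (hn : 1 ≤ n) : ∑ N ∈ Icc n X, (1 / (N : ℝ)) * (1 / (N : ℝ)) ≤ 2 / n := by
  have hn' : (1 : ℝ) ≤ n := by exact_mod_cast hn
  have key : ∀ X : ℕ, n ≤ X → ∑ N ∈ Icc n X, (1 / (N : ℝ)) * (1 / (N : ℝ)) ≤ 2 / n - 1 / X := by
    intro X hX
    induction X, hX using Nat.le_induction with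
    | base =>
      rw [Icc_self, sum_singleton]
      have : 1 / (n : ℝ) * (1 / (n : ℝ)) ≤ 1 / n * 1 :=
        mul_le_mul_of_nonneg_left ((div_le_one (by linarith)).2 hn') (by positivity)
      have e : 2 / (n : ℝ) - 1 / n = 1 / n * 1 := by ring
      rw [e]; exact this
    | succ X hX ih =>
      rw [sum_Icc_succ_top (by omega)]
      have hX' : (0 : ℝ) < X := by exact_mod_cast (by omega : 0 < X)
      have h1 : 1 / ((X + 1 : ℕ) : ℝ) * (1 / ((X + 1 : ℕ) : ℝ)) ≤ 1 / (X : ℝ) - 1 / ((X + 1 : ℕ) : ℝ) := by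
        push_cast
        rw [div_mul_div_comm, div_sub_div _ _ hX'.ne' (by positivity), div_le_div_iff₀ (by positivity) (by positivity)]
        nlinarith
      linarith
  by_cases hX : n ≤ X
  · have := key X hX
    have h2 : (0 : ℝ) ≤ 1 / X := by positivity
    linarith
  · rw [Icc_eq_empty_of_lt (not_le.1 hX), sum_empty]
    positivity

/-- logarithmic average of the Cesàro means by windows -/
lemma ces_log (a : ℕ → ℂ) (A : ℝ) (ha : ∀ n, ‖a n‖ ≤ A) (X H : ℕ) :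
    H * ∑ N ∈ Icc 1 X, (1 / (N : ℝ)) * ‖(1 / (N : ℂ)) * ∑ n ∈ Icc 1 N, a n‖ ≤
      2 * ∑ n ∈ Icc 1 X, (1 / (n : ℝ)) * ‖∑ h ∈ Icc 1 H, a (n + h)‖ + 4 * A * H ^ 2 := by
  have hA : 0 ≤ A := (norm_nonneg _).trans (ha 0)
  set c : ℕ → ℝ := fun n => ‖∑ h ∈ Icc 1 H, a (n + h)‖ with hc
  have hc0 : ∀ n, 0 ≤ c n := fun n => norm_nonneg _
  have h1 : ∀ N : ℕ, H * ((1 / (N : ℝ)) * ‖(1 / (N : ℂ)) * ∑ n ∈ Icc 1 N, a n‖) ≤
      (1 / (N : ℝ)) * (1 / (N : ℝ)) * (∑ n ∈ Icc 1 N, c n + 2 * A * H ^ 2) := by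
    intro N
    rw [norm_mul, norm_div, norm_one, Complex.norm_natCast]
    have h2 := window_ces a A ha N H
    calc _ = (1 / (N : ℝ)) * (1 / (N : ℝ)) * (H * ‖∑ n ∈ Icc 1 N, a n‖) := by ring
      _ ≤ _ := mul_le_mul_of_nonneg_left h2 (by positivity)
  rw [mul_sum]
  refine (sum_le_sum fun N _ => h1 N).trans ?_
  simp only [mul_add, sum_add_distrib]
  refine add_le_add ?_ ?_
  · -- exchange the sums
    have e : ∑ N ∈ Icc 1 X, (1 / (N : ℝ)) * (1 / (N : ℝ)) * ∑ n ∈ Icc 1 N, c n =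
        ∑ n ∈ Icc 1 X, c n * ∑ N ∈ Icc n X, (1 / (N : ℝ)) * (1 / (N : ℝ)) := by
      simp_rw [mul_sum]
      rw [sum_comm' (t' := Icc 1 X) (s' := fun n => Icc n X)]
      · refine sum_congr rfl fun n _ => sum_congr rfl fun N _ => by ring
      · intro N n
        simp only [mem_Icc]
        omega
    rw [e, mul_sum]
    refine sum_le_sum fun n hn => ?_
    have h2 := inv_sq n X (mem_Icc.1 hn).1
    calc c n * ∑ N ∈ Icc n X, (1 / (N : ℝ)) * (1 / (N : ℝ)) ≤ c n * (2 / n) := mul_le_mul_of_nonneg_left h2 (hc0 n)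
      _ = 2 * ((1 / (n : ℝ)) * c n) := by ring
  · rw [← sum_mul]
    have h2 := inv_sq 1 X le_rfl
    rw [Nat.cast_one, div_one] at h2
    calc _ ≤ 2 * (2 * A * H ^ 2) := mul_le_mul_of_nonneg_right h2 (by positivity)
      _ = _ := by ring

/-- **scales**: logarithmic average of the absolute values of the Cesàro means -/
theorem scales {X : Type*} [MetricSpace X] [MeasurableSpace X] [CompactSpace X] [BorelSpace X] {T : X → X}
    (hT : Continuous T) (x : X) (u : ℕ → ℂ) (hu : ∀ n, ‖u n‖ ≤ 1) (f : C(X, ℂ))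
    (h : ∀ ν : Measure X, IsProbabilityMeasure ν → MeasurePreserving T ν ν → LogClu T x ν → ∀ ε : ℝ, 0 < ε →
      ∃ W : Set (ℕ → ℂ), Momo u W ∧ ∀ H : ℕ, 1 ≤ H →
        ENNReal.ofReal (1 - ε) ≤ ν {y | ∃ w ∈ W, ∑ h ∈ Icc 1 H, ‖f (T^[h] y) - w h‖ < ε * H}) :
    Tendsto (fun X : ℕ => (∑ N ∈ Icc 1 X, (1 / (N : ℝ)) * ‖(1 / (N : ℂ)) * ∑ n ∈ Icc 1 N, f (T^[n] x) * u n‖) /
      Real.log X) atTop (𝓝 0) := by
  rw [tendsto_iff_ultrafilter]
  intro 𝒱 h𝒱
  rw [Metric.tendsto_nhds]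
  intro δ hδ
  obtain ⟨H, hH, h1⟩ := core hT x u hu f h h𝒱 (δ / 8) (by positivity)
  set A : ℝ := ‖f‖ with hA
  have hA0 : 0 ≤ A := norm_nonneg _
  have hHr : (1 : ℝ) ≤ H := by exact_mod_cast hH
  have ha : ∀ n, ‖f (T^[n] x) * u n‖ ≤ A := by
    intro n
    rw [norm_mul]
    calc _ ≤ A * 1 := mul_le_mul (f.norm_coe_le_norm _) (hu n) (norm_nonneg _) hA0
      _ = A := mul_one _
  have hlog : Tendsto (fun N : ℕ => 4 * A * H / Real.log N) 𝒱 (𝓝 0) :=
    (tendsto_const_nhds.div_atTop (Real.tendsto_log_atTop.comp tendsto_natCast_atTop_atTop)).mono_left h𝒱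
  have hlog2 : ∀ᶠ N : ℕ in (𝒱 : Filter ℕ), 4 * A * H / Real.log (N : ℝ) < δ / 4 :=
    hlog.eventually (gt_mem_nhds (by positivity))
  filter_upwards [h1, h𝒱 (eventually_ge_atTop 3), hlog2] with N hN1 hN3 hN4
  have hNr : (3 : ℝ) ≤ N := by exact_mod_cast hN3
  have hl : 1 ≤ Real.log N := by
    rw [Real.le_log_iff_exp_le (by linarith)]
    linarith [Real.exp_one_lt_d9]
  have hl0 : 0 < Real.log N := by linarith
  have hh := hs_le N
  have h2 := ces_log (fun n => f (T^[n] x) * u n) A ha N H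
  have h3 : (H : ℝ) * ∑ M ∈ Icc 1 N, (1 / (M : ℝ)) * ‖(1 / (M : ℂ)) * ∑ n ∈ Icc 1 M, f (T^[n] x) * u n‖ ≤
      H * (2 * (δ / 8) * hs N + 4 * A * H) := by
    refine h2.trans ?_
    have := mul_le_mul_of_nonneg_left hN1 (show (0 : ℝ) ≤ 2 by norm_num)
    calc _ ≤ 2 * (δ / 8 * H * hs N) + 4 * A * H ^ 2 := add_le_add this le_rfl
      _ = _ := by ring
  have h4 := le_of_mul_le_mul_left h3 (by linarith)
  have h0 : 0 ≤ ∑ M ∈ Icc 1 N, (1 / (M : ℝ)) * ‖(1 / (M : ℂ)) * ∑ n ∈ Icc 1 M, f (T^[n] x) * u n‖ :=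
    sum_nonneg fun M _ => by positivity
  rw [dist_zero_right, Real.norm_of_nonneg (div_nonneg h0 hl0.le), div_lt_iff₀ hl0]
  rw [div_lt_iff₀ hl0] at hN4
  have h5 : 2 * (δ / 8) * hs N ≤ δ / 2 * Real.log N := by
    have : hs N ≤ 2 * Real.log N := by linarith
    calc 2 * (δ / 8) * hs N ≤ 2 * (δ / 8) * (2 * Real.log N) := mul_le_mul_of_nonneg_left this (by positivity)
      _ = _ := by ring
  have h6 : 0 < δ * Real.log N := by positivity
  linarith

open Classical in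
/-- logarithmic density zero -/
def LDZ (E : Set ℕ) : Prop := Tendsto
  (fun X : ℕ => (∑ n ∈ Icc 1 X, if n ∈ E then (1 : ℝ) / n else 0) / Real.log X) atTop (𝓝 0)

lemma ldz_nonneg (E : Set ℕ) [DecidablePred (· ∈ E)] (X : ℕ) :
    0 ≤ (∑ n ∈ Icc 1 X, if n ∈ E then (1 : ℝ) / n else 0) / Real.log X := by
  refine div_nonneg (sum_nonneg fun n _ => ?_) (Real.log_natCast_nonneg X)
  split_ifs <;> positivity

/-- Markov -/
lemma ldz_of {b : ℕ → ℝ} (hb : ∀ n, 0 ≤ b n)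
    (h : Tendsto (fun X : ℕ => (∑ N ∈ Icc 1 X, (1 / (N : ℝ)) * b N) / Real.log X) atTop (𝓝 0)) (δ : ℝ) (hδ : 0 < δ) :
    LDZ {N | δ ≤ b N} := by
  classical
  unfold LDZ
  have h1 : Tendsto (fun X : ℕ => δ⁻¹ * ((∑ N ∈ Icc 1 X, (1 / (N : ℝ)) * b N) / Real.log X)) atTop (𝓝 0) := by
    have := h.const_mul δ⁻¹
    rwa [mul_zero] at this
  refine squeeze_zero (fun X => ?_) (fun X => ?_) h1
  · refine div_nonneg (sum_nonneg fun n _ => ?_) (Real.log_natCast_nonneg X)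
    split_ifs <;> positivity
  · rw [mul_div_assoc', mul_sum]
    refine div_le_div_of_nonneg_right (sum_le_sum fun n _ => ?_) (Real.log_natCast_nonneg X)
    by_cases hn : n ∈ {N | δ ≤ b N}
    · rw [if_pos hn]
      have h2 : δ ≤ b n := hn
      have h3 : 1 ≤ δ⁻¹ * b n := by
        rw [inv_mul_eq_div, le_div_iff₀ hδ]; linarith
      calc (1 : ℝ) / n = (1 / n) * 1 := (mul_one _).symm
        _ ≤ (1 / n) * (δ⁻¹ * b n) := mul_le_mul_of_nonneg_left h3 (by positivity)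
        _ = _ := by ring
    · rw [if_neg hn]
      have := hb n
      positivity

lemma ldz_empty : LDZ ∅ := by
  unfold LDZ
  simp

lemma ldz_union {E F : Set ℕ} (hE : LDZ E) (hF : LDZ F) : LDZ (E ∪ F) := by
  classical
  unfold LDZ at *
  have h1 := hE.add hF
  rw [add_zero] at h1
  refine squeeze_zero (fun X => ?_) (fun X => ?_) h1
  · refine div_nonneg (sum_nonneg fun n _ => ?_) (Real.log_natCast_nonneg X)
    split_ifs <;> positivity
  · rw [← add_div, ← sum_add_distrib]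
    refine div_le_div_of_nonneg_right (sum_le_sum fun n _ => ?_) (Real.log_natCast_nonneg X)
    have h0 : (0 : ℝ) ≤ 1 / n := by positivity
    by_cases h2 : n ∈ E <;> by_cases h3 : n ∈ F <;> simp only [Set.mem_union, h2, h3, or_true, true_or, or_self,
      if_true, if_false, add_zero, zero_add, le_refl]
    linarith

/-- diagonal sets -/
lemma diag (S : ℕ → Set ℕ) (hS : Monotone S) (h0 : ∀ j, LDZ (S j)) :
    ∃ E : Set ℕ, LDZ E ∧ ∀ j, ∃ N₀ : ℕ, ∀ N ≥ N₀, N ∉ E → N ∉ S j := by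
  classical
  have h1 : ∀ j : ℕ, ∃ M : ℕ, ∀ X ≥ M,
      (∑ n ∈ Icc 1 X, if n ∈ S j then (1 : ℝ) / n else 0) / Real.log X ≤ 1 / ((j : ℝ) + 1) := by
    intro j
    have h2 := (h0 j).eventually (gt_mem_nhds (show (0 : ℝ) < 1 / ((j : ℝ) + 1) by positivity))
    obtain ⟨M, hM⟩ := eventually_atTop.1 h2
    refine ⟨M, fun X hX => ?_⟩
    have h3 := (hM X hX).le
    convert h3
  choose M hM using h1
  set B : ℕ → ℕ := fun j => j + ∑ i ∈ range (j + 1), M i with hB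
  have hBM : ∀ j, M j ≤ B j := by
    intro j
    have := single_le_sum (f := M) (fun _ _ => Nat.zero_le _) (self_mem_range_succ j)
    show M j ≤ j + _
    omega
  have hBs : StrictMono B := by
    refine strictMono_nat_of_lt_succ fun j => ?_
    show j + ∑ i ∈ range (j + 1), M i < j + 1 + ∑ i ∈ range (j + 1 + 1), M i
    rw [sum_range_succ M (j + 1)]
    omega
  have hloc : ∀ n, B 0 ≤ n → ∃ j, B j ≤ n ∧ n < B (j + 1) := by
    intro n hn
    have hex : ∃ j, n < B j := ⟨n + 1, lt_of_lt_of_le (Nat.lt_succ_self n) (hBs.id_le (n + 1))⟩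
    have h2 : Nat.find hex ≠ 0 := by
      intro h3
      have := Nat.find_spec hex
      rw [h3] at this
      omega
    obtain ⟨j, hj⟩ := Nat.exists_eq_succ_of_ne_zero h2
    refine ⟨j, ?_, ?_⟩
    · have := Nat.find_min hex (m := j) (by omega)
      omega
    · have := Nat.find_spec hex
      rw [hj] at this
      exact this
  refine ⟨{n | ∃ j, B j ≤ n ∧ n < B (j + 1) ∧ n ∈ S j}, ?_, fun j => ⟨B j, fun N hN hNE hNS => ?_⟩⟩
  · show Tendsto _ _ _
    rw [Metric.tendsto_atTop]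
    intro ε hε
    obtain ⟨j₀, hj₀⟩ := exists_nat_one_div_lt hε
    refine ⟨B j₀, fun X hX => ?_⟩
    obtain ⟨j, hj1, hj2⟩ := hloc X (le_trans (hBs.monotone (Nat.zero_le _)) hX)
    have hjj : j₀ ≤ j := by
      by_contra hcon
      have h3 : B (j + 1) ≤ B j₀ := hBs.monotone (by omega)
      omega
    rw [dist_zero_right, Real.norm_of_nonneg]
    swap
    · refine div_nonneg (sum_nonneg fun n _ => ?_) (Real.log_natCast_nonneg X)
      split_ifs <;> positivity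
    calc _ ≤ (∑ n ∈ Icc 1 X, if n ∈ S j then (1 : ℝ) / n else 0) / Real.log X := by
          refine div_le_div_of_nonneg_right (sum_le_sum fun n hn => ?_) (Real.log_natCast_nonneg X)
          by_cases h4 : n ∈ {n | ∃ j, B j ≤ n ∧ n < B (j + 1) ∧ n ∈ S j}
          · have h5 : n ∈ S j := by
              obtain ⟨i, hi1, hi2, hi3⟩ := h4
              have hij : i ≤ j := by
                by_contra hcon
                have h6 : B (j + 1) ≤ B i := hBs.monotone (by omega)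
                have h7 := (mem_Icc.1 hn).2
                omega
              exact hS hij hi3
            rw [if_pos h4, if_pos h5]
          · rw [if_neg h4]
            split_ifs <;> positivity
      _ ≤ 1 / ((j : ℝ) + 1) := hM j X (le_trans (hBM j) hj1)
      _ ≤ 1 / ((j₀ : ℝ) + 1) := by
          apply one_div_le_one_div_of_le (by positivity)
          have : (j₀ : ℝ) ≤ j := by exact_mod_cast hjj
          linarith
      _ < ε := hj₀
  · obtain ⟨i, hi1, hi2⟩ := hloc N (le_trans (hBs.monotone (Nat.zero_le _)) hN)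
    have hji : j ≤ i := by
      by_contra hcon
      have h3 : B (i + 1) ≤ B j := hBs.monotone (by omega)
      omega
    exact hNE ⟨i, hi1, hi2, hS hji hNS⟩

/-- **most scales** -/
theorem most {X : Type*} [MetricSpace X] [MeasurableSpace X] [CompactSpace X] [BorelSpace X] {T : X → X}
    (hT : Continuous T) (x : X) (u : ℕ → ℂ) (hu : ∀ n, ‖u n‖ ≤ 1)
    (h : ∀ f : C(X, ℂ), ∀ ν : Measure X, IsProbabilityMeasure ν → MeasurePreserving T ν ν → LogClu T x ν →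
      ∀ ε : ℝ, 0 < ε → ∃ W : Set (ℕ → ℂ), Momo u W ∧ ∀ H : ℕ, 1 ≤ H →
        ENNReal.ofReal (1 - ε) ≤ ν {y | ∃ w ∈ W, ∑ h ∈ Icc 1 H, ‖f (T^[h] y) - w h‖ < ε * H}) :
    ∃ E : Set ℕ, LDZ E ∧ ∀ f : C(X, ℂ), ∀ ε : ℝ, 0 < ε → ∃ N₀ : ℕ, ∀ N ≥ N₀, N ∉ E →
      ‖(1 / (N : ℂ)) * ∑ n ∈ Icc 1 N, f (T^[n] x) * u n‖ ≤ ε := by
  classical
  set D : ℕ → C(X, ℂ) := TopologicalSpace.denseSeq C(X, ℂ) with hD
  have hDd : DenseRange D := TopologicalSpace.denseRange_denseSeq _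
  set b : C(X, ℂ) → ℕ → ℝ := fun f N => ‖(1 / (N : ℂ)) * ∑ n ∈ Icc 1 N, f (T^[n] x) * u n‖ with hb
  set S : ℕ → Set ℕ := fun j => {N | ∃ i ≤ j, 1 / ((j : ℝ) + 1) ≤ b (D i) N} with hS
  have hSm : Monotone S := by
    intro j k hjk N hN
    obtain ⟨i, hi, h1⟩ := hN
    refine ⟨i, hi.trans hjk, le_trans ?_ h1⟩
    apply one_div_le_one_div_of_le (by positivity)
    have : (j : ℝ) ≤ k := by exact_mod_cast hjk
    linarith
  have hS0 : ∀ j, LDZ (S j) := by
    intro j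
    have h1 : ∀ m : ℕ, LDZ {N | ∃ i < m, 1 / ((j : ℝ) + 1) ≤ b (D i) N} := by
      intro m
      induction m with
      | zero =>
        have : {N | ∃ i < 0, 1 / ((j : ℝ) + 1) ≤ b (D i) N} = (∅ : Set ℕ) := by
          ext N; simp
        rw [this]; exact ldz_empty
      | succ m ih =>
        have h2 : {N | ∃ i < m + 1, 1 / ((j : ℝ) + 1) ≤ b (D i) N} =
            {N | ∃ i < m, 1 / ((j : ℝ) + 1) ≤ b (D i) N} ∪ {N | 1 / ((j : ℝ) + 1) ≤ b (D m) N} := by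
          ext N
          constructor
          · rintro ⟨i, hi, h3⟩
            rcases Nat.lt_succ_iff_lt_or_eq.1 hi with h4 | h4
            · exact Or.inl ⟨i, h4, h3⟩
            · subst h4; exact Or.inr h3
          · rintro (⟨i, hi, h3⟩ | h3)
            · exact ⟨i, by omega, h3⟩
            · exact ⟨m, by omega, h3⟩
        rw [h2]
        refine ldz_union ih (ldz_of (fun n => norm_nonneg _) (scales hT x u hu (D m) (h (D m))) _ (by positivity))
    have h2 : S j = {N | ∃ i < j + 1, 1 / ((j : ℝ) + 1) ≤ b (D i) N} := by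
      ext N
      constructor
      · rintro ⟨i, hi, h3⟩; exact ⟨i, by omega, h3⟩
      · rintro ⟨i, hi, h3⟩; exact ⟨i, by omega, h3⟩
    rw [h2]
    exact h1 (j + 1)
  obtain ⟨E, hE, hEN⟩ := diag S hSm hS0
  refine ⟨E, hE, fun f ε hε => ?_⟩
  obtain ⟨i, hi⟩ := hDd.exists_dist_lt f (show 0 < ε / 2 by positivity)
  obtain ⟨j₀, hj₀⟩ := exists_nat_one_div_lt (show 0 < ε / 2 by positivity)
  obtain ⟨N₀, hN₀⟩ := hEN (max i j₀)
  refine ⟨N₀, fun N hN hNE => ?_⟩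
  have h1 : b (D i) N < 1 / (((max i j₀ : ℕ) : ℝ) + 1) := by
    by_contra hcon
    exact hN₀ N hN hNE ⟨i, le_max_left _ _, not_lt.1 hcon⟩
  have h2 : 1 / (((max i j₀ : ℕ) : ℝ) + 1) ≤ 1 / ((j₀ : ℝ) + 1) := by
    apply one_div_le_one_div_of_le (by positivity)
    have : (j₀ : ℝ) ≤ ((max i j₀ : ℕ) : ℝ) := by exact_mod_cast le_max_right _ _
    linarith
  have h3 : ‖(1 / (N : ℂ)) * ∑ n ∈ Icc 1 N, (f (T^[n] x) - D i (T^[n] x)) * u n‖ ≤ ε / 2 := by
    rw [norm_mul, norm_div, norm_one, Complex.norm_natCast]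
    rcases Nat.eq_zero_or_pos N with rfl | hN0
    · simp; positivity
    have hNr : (0 : ℝ) < N := by exact_mod_cast hN0
    have h4 : ‖∑ n ∈ Icc 1 N, (f (T^[n] x) - D i (T^[n] x)) * u n‖ ≤ ∑ n ∈ Icc 1 N, ε / 2 := by
      refine (norm_sum_le _ _).trans (sum_le_sum fun n _ => ?_)
      rw [norm_mul]
      have h5 : ‖f (T^[n] x) - D i (T^[n] x)‖ ≤ ε / 2 := by
        rw [← dist_eq_norm]
        exact (ContinuousMap.dist_apply_le_dist _).trans hi.le
      calc _ ≤ ε / 2 * 1 := mul_le_mul h5 (hu n) (norm_nonneg _) (by positivity)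
        _ = _ := mul_one _
    rw [sum_const, Nat.card_Icc, nsmul_eq_mul, Nat.add_sub_cancel] at h4
    calc _ ≤ 1 / (N : ℝ) * (N * (ε / 2)) := mul_le_mul_of_nonneg_left h4 (by positivity)
      _ = ε / 2 := by field_simp
  have e : (1 / (N : ℂ)) * ∑ n ∈ Icc 1 N, f (T^[n] x) * u n =
      (1 / (N : ℂ)) * ∑ n ∈ Icc 1 N, (f (T^[n] x) - D i (T^[n] x)) * u n +
      (1 / (N : ℂ)) * ∑ n ∈ Icc 1 N, D i (T^[n] x) * u n := by
    rw [← mul_add, ← sum_add_distrib]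
    congr 1
    exact sum_congr rfl fun n _ => by ring
  rw [e]
  refine (norm_add_le _ _).trans ?_
  have h4 : ‖(1 / (N : ℂ)) * ∑ n ∈ Icc 1 N, D i (T^[n] x) * u n‖ ≤ ε / 2 := by
    have : b (D i) N < ε / 2 := lt_of_lt_of_le h1 (h2.trans hj₀.le)
    exact this.le
  linarith

end Pool.Agent.Helper44K9.FS
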