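import Pool.Agent.Helper42K9.AC.Abs
import Pool.Agent.Helper44K9.FS.Fac
import Pool.Agent.Results.MP_663568_nt.TwoStepNilmanifolds

/-!
# Furstenberg systems: orthogonality to families of two-step nilrotations with singular frequencies
-/

set_option autoImplicit false

namespace Pool.Agent.Helper44K9.FS

open Finset MeasureTheory Filter Topology
open Pool.Agent.Helper42K9.AC (Val Sq shift seq IsFurstenbergSystem IsMult Aperiodic Ext Cls S_PER)
open Pool.Agent.Helper44K9.FB (lf)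
open Pool.Agent.Results.MP_663568_nt.TwoStepNilmanifolds (mul CommutatorsSpan windowSup mean IsBoundedMultiplicative)

lemma val_le (x : Sq) (k : ℤ) : ‖((x k : ℝ) : ℂ)‖ ≤ 1 := Pool.Agent.Helper42K9.AC.AbsL.val_le x k

/-- suprema over bounded families are continuous -/
lemma sup_cont {ι : Type} (b : ι → ℕ → ℂ) (C : ℝ) (hb : ∀ i h, ‖b i h‖ ≤ C) (H : ℕ) :
    Continuous (fun x : Sq => ⨆ i, ‖∑ h ∈ Icc 1 H, ((x (h : ℤ) : ℝ) : ℂ) * b i h‖) := by
  rcases isEmpty_or_nonempty ι with hι | hι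
  · simp only [Real.iSup_of_isEmpty]
    exact continuous_const
  have hC : 0 ≤ C := (norm_nonneg _).trans (hb (Classical.arbitrary ι) 0)
  have hbdd : ∀ x : Sq, BddAbove (Set.range fun i => ‖∑ h ∈ Icc 1 H, ((x (h : ℤ) : ℝ) : ℂ) * b i h‖) := by
    intro x
    refine ⟨∑ h ∈ Icc 1 H, C, ?_⟩
    rintro _ ⟨i, rfl⟩
    refine (norm_sum_le _ _).trans (sum_le_sum fun h _ => ?_)
    rw [norm_mul]
    calc _ ≤ 1 * C := mul_le_mul (val_le _ _) (hb _ _) (norm_nonneg _) zero_le_one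
      _ = C := one_mul _
  have hle : ∀ x y : Sq, (⨆ i, ‖∑ h ∈ Icc 1 H, ((x (h : ℤ) : ℝ) : ℂ) * b i h‖) ≤
      (⨆ i, ‖∑ h ∈ Icc 1 H, ((y (h : ℤ) : ℝ) : ℂ) * b i h‖) +
        ∑ h ∈ Icc 1 H, C * |(x (h : ℤ) : ℝ) - (y (h : ℤ) : ℝ)| := by
    intro x y
    refine ciSup_le fun i => ?_
    have h1 : ‖∑ h ∈ Icc 1 H, ((x (h : ℤ) : ℝ) : ℂ) * b i h‖ ≤ ‖∑ h ∈ Icc 1 H, ((y (h : ℤ) : ℝ) : ℂ) * b i h‖ +
        ∑ h ∈ Icc 1 H, C * |(x (h : ℤ) : ℝ) - (y (h : ℤ) : ℝ)| := by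
      have e : ∑ h ∈ Icc 1 H, ((x (h : ℤ) : ℝ) : ℂ) * b i h = ∑ h ∈ Icc 1 H, ((y (h : ℤ) : ℝ) : ℂ) * b i h +
          ∑ h ∈ Icc 1 H, (((x (h : ℤ) : ℝ) : ℂ) - ((y (h : ℤ) : ℝ) : ℂ)) * b i h := by
        rw [← sum_add_distrib]
        exact sum_congr rfl fun h _ => by ring
      rw [e]
      refine (norm_add_le _ _).trans (add_le_add le_rfl ((norm_sum_le _ _).trans (sum_le_sum fun h _ => ?_)))
      rw [norm_mul, ← Complex.ofReal_sub, Complex.norm_real, Real.norm_eq_abs, mul_comm]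
      exact mul_le_mul_of_nonneg_right (hb _ _) (abs_nonneg _)
    exact h1.trans (add_le_add (le_ciSup (hbdd y) i) le_rfl)
  rw [continuous_iff_continuousAt]
  intro x
  have hD : Tendsto (fun y : Sq => ∑ h ∈ Icc 1 H, C * |(y (h : ℤ) : ℝ) - (x (h : ℤ) : ℝ)|) (𝓝 x) (𝓝 0) := by
    have h1 : Continuous (fun y : Sq => ∑ h ∈ Icc 1 H, C * |(y (h : ℤ) : ℝ) - (x (h : ℤ) : ℝ)|) := by fun_prop
    have h2 := h1.tendsto x
    simpa using h2
  show Tendsto _ _ _
  rw [tendsto_iff_dist_tendsto_zero]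
  refine squeeze_zero (fun _ => dist_nonneg) (fun y => ?_) hD
  have e : ∑ h ∈ Icc 1 H, C * |(x (h : ℤ) : ℝ) - (y (h : ℤ) : ℝ)| =
      ∑ h ∈ Icc 1 H, C * |(y (h : ℤ) : ℝ) - (x (h : ℤ) : ℝ)| :=
    sum_congr rfl fun h _ => by rw [abs_sub_comm]
  have h1 := hle x y
  have h2 := hle y x
  rw [e] at h1
  rw [Real.dist_eq, abs_le]
  constructor
  · linarith
  · linarith

/-- passing to the limit -/
lemma fur_sup {f : ℕ → Val} {μ : Measure Sq} (hμ : IsFurstenbergSystem f μ) {ι : Type} (b : ι → ℕ → ℂ) (C : ℝ)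
    (hb : ∀ i h, ‖b i h‖ ≤ C) (H : ℕ) (B : ℝ) (N₀ : ℕ)
    (hB : ∀ N ≥ N₀, ∑ n ∈ Icc 1 N, (1 / (n : ℝ)) * (⨆ i, ‖∑ h ∈ Icc 1 H, ((f (n + h) : ℝ) : ℂ) * b i h‖) ≤
      B * Real.log N) :
    ∫ x : Sq, (⨆ i, ‖∑ h ∈ Icc 1 H, ((x (h : ℤ) : ℝ) : ℂ) * b i h‖) ∂μ ≤ B := by
  obtain ⟨hprob, N, hN, hlim⟩ := hμ
  refine le_of_tendsto (hlim _ (sup_cont b C hb H)) ?_
  filter_upwards [hN.eventually_ge_atTop (max N₀ 3)] with j hj
  have h1 := hB (N j) (le_trans (le_max_left _ _) hj)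
  have hj3 : 3 ≤ N j := le_trans (le_max_right _ _) hj
  have hl : 0 < Real.log (N j) := Real.log_pos (by exact_mod_cast (by omega : 1 < N j))
  rw [one_div, inv_mul_le_iff₀ hl, mul_comm]
  refine le_trans (le_of_eq ?_) h1
  refine sum_congr rfl fun n _ => ?_
  congr 1
  refine iSup_congr fun i => ?_
  congr 1
  refine sum_congr rfl fun h hh => ?_
  have h3 := (mem_Icc.1 hh).1
  have e : (Pool.Agent.Helper42K9.AC.shift (n : ℤ) (Pool.Agent.Helper42K9.AC.seq f)) (h : ℤ) = f (n + h) := by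
    unfold Pool.Agent.Helper42K9.AC.shift Pool.Agent.Helper42K9.AC.seq
    rw [if_pos (by omega)]
    congr 1
    omega
  rw [e]

/-- the function as a bounded multiplicative function -/
noncomputable def cf0 (f : ℕ → Val) (n : ℕ) : ℂ := if n = 0 then 0 else ((f n : ℝ) : ℂ)

lemma cf0_mult {f : ℕ → Val} (hf : IsMult f) : IsBoundedMultiplicative (cf0 f) := by
  constructor
  · intro n
    unfold cf0
    split_ifs
    · simp
    · exact val_le (fun _ => f n) 0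
  · intro a b hab
    unfold cf0
    by_cases ha : a = 0
    · subst ha; simp
    by_cases hb : b = 0
    · subst hb; simp
    rw [if_neg (mul_ne_zero ha hb), if_neg ha, if_neg hb, hf.2 a b (by omega) (by omega) hab]
    push_cast
    ring

/-- `Y` is the nilmanifold `G/Γ` -/
def IsNil {d c : ℕ} (β : Fin c → Matrix (Fin d) (Fin d) ℤ) {Y : Type} [TopologicalSpace Y]
    (p : (Fin d → ℝ) × (Fin c → ℝ) → Y) : Prop :=
  Continuous p ∧ Function.Surjective p ∧ ∀ g h, p g = p h ↔ ∃ (m : Fin d → ℤ) (j : Fin c → ℤ),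
    h = mul β g (fun i => (m i : ℝ), fun l => (j l : ℝ))

/-- the frequencies of an element -/
noncomputable def par {d c : ℕ} (g : (Fin d → ℝ) × (Fin c → ℝ)) : Fin d → UnitAddCircle := fun i => (g.1 i : UnitAddCircle)

section main

variable {f : ℕ → Val} {μ : Measure Sq} {Z : Type} [MeasurableSpace Z] {ρ : Measure Z} [IsProbabilityMeasure ρ]
  {S : Z → Z} {π : Z → Sq}

/-- invariant sets -/
lemma inv_set (hf : IsMult f) (ha : Aperiodic f) (hμ : IsFurstenbergSystem f μ) (hext : Ext ρ S π μ) (hPER : S_PER)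
    {B : Set Z} (hB : MeasurableSet B) (hBS : ∀ᵐ z ∂ρ, ∀ n : ℕ, (S^[n] z ∈ B ↔ z ∈ B)) :
    ∫ z, ((π z 0 : ℝ) : ℂ) * B.indicator (fun _ => (1 : ℂ)) z ∂ρ = 0 := by
  rw [← norm_le_zero_iff]
  refine le_of_forall_pos_le_add fun ε hε => ?_
  rw [zero_add]
  obtain ⟨H, G, hH, hGi, hG0, hGC, hGint⟩ := hPER f hf ha μ hμ 1 le_rfl ε hε
  have h1 := Pool.Agent.Helper42K9.AC.abs_ Z ρ S π μ hext (Cls 0 1 Set.univ) H G hH hGi hG0 hGC
    (B.indicator fun _ => (1 : ℂ)) (measurable_const.indicator hB) (fun z => by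
      by_cases hz : z ∈ B
      · rw [Set.indicator_of_mem hz]; simp
      · rw [Set.indicator_of_notMem hz]; simp) (by
      filter_upwards [hBS] with z hz
      by_cases hzB : z ∈ B
      · right
        refine ⟨1, zero_le_one, le_rfl, fun _ => 1, ⟨fun _ => 1, 0, fun _ => rfl, fun _ => by simp, by simp, trivial,
          fun n => ?_⟩, fun n => ?_⟩
        · unfold Pool.Agent.Helper42K9.AC.e
          simp
        · rw [Set.indicator_of_mem ((hz n).2 hzB)]; simp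
      · left
        intro n
        rw [Set.indicator_of_notMem (fun h => hzB ((hz n).1 h))])
  have hHr : (0 : ℝ) < H := by exact_mod_cast hH
  have h2 : (H : ℝ) * ‖∫ z, ((π z 0 : ℝ) : ℂ) * B.indicator (fun _ => (1 : ℂ)) z ∂ρ‖ ≤ H * ε := by
    refine (h1.trans hGint).trans (le_of_eq (mul_comm _ _))
  exact le_of_mul_le_mul_left h2 hHr

variable {d c : ℕ} {β : Fin c → Matrix (Fin d) (Fin d) ℤ} {Y : Type} [MetricSpace Y] [CompactSpace Y]
  [MeasurableSpace Y] [BorelSpace Y] {p : (Fin d → ℝ) × (Fin c → ℝ) → Y}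
  {act : (Fin d → ℝ) × (Fin c → ℝ) → Y → Y}

/-- one compact set of frequencies -/
lemma two_E (hf : IsMult f) (hμ : IsFurstenbergSystem f μ) (hext : Ext ρ S π μ)
    (hβ : CommutatorsSpan β) (hp : IsNil β p) (hact : ∀ g h, act g (p h) = p (mul β g h))
    (g : Z → (Fin d → ℝ) × (Fin c → ℝ)) (φ : Z → Y) (hφ : Measurable φ)
    (horb : ∀ᵐ z ∂ρ, ∀ n : ℕ, φ (S^[n] z) = (act (g z))^[n] (φ z))
    {E : Set (Fin d → UnitAddCircle)} (hEc : IsCompact E)
    (hE : ∀ k : Fin d → ℤ, k ≠ 0 → volume (lf k '' E) = 0 ∧ ∀ x ∈ E, addOrderOf (lf k x) = 0)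
    {B : Set Z} (hB : MeasurableSet B) (hBS : ∀ᵐ z ∂ρ, ∀ n : ℕ, (S^[n] z ∈ B ↔ z ∈ B))
    (hBE : ∀ᵐ z ∂ρ, z ∈ B → par (g z) ∈ E) (F : C(Y, ℂ)) :
    ∫ z, ((π z 0 : ℝ) : ℂ) * B.indicator (fun z => F (φ z) - mean (fun h => F (p h))) z ∂ρ = 0 := by
  set c₀ : ℂ := mean (fun h => F (p h)) with hc₀
  set K : ℝ := ‖F‖ + ‖c₀‖ + 1 with hK
  have hK1 : 1 ≤ K := by
    have h1 := norm_nonneg F
    have h2 := norm_nonneg c₀
    linarith
  have hK0 : 0 < K := by linarith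
  have hFc : ∀ y, ‖F y - c₀‖ ≤ K := by
    intro y
    have := norm_sub_le (F y) c₀
    have := F.norm_coe_le_norm y
    linarith
  have hFK : ∀ y, ‖(F y - c₀) / (K : ℂ)‖ ≤ 1 := by
    intro y
    rw [norm_div, Complex.norm_real, Real.norm_of_nonneg hK0.le, div_le_one hK0]
    exact hFc y
  have hit : ∀ (g h : (Fin d → ℝ) × (Fin c → ℝ)) (n : ℕ), (act g)^[n] (p h) = p ((mul β g)^[n] h) := by
    intro g h n
    induction n with
    | zero => rfl
    | succ n ih => rw [Function.iterate_succ_apply', ih, hact, Function.iterate_succ_apply']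
  have hsurj : ∀ g, Function.Surjective (mul β g) := by
    intro g h
    refine ⟨(h.1 - g.1, h.2 - g.2 - fun l => ∑ i, ∑ j, g.1 i * (β l i j : ℝ) * (h.1 - g.1) j), ?_⟩
    unfold mul
    refine Prod.ext ?_ ?_
    · simp
    · simp only
      abel
  -- the theorem on short intervals
  have hFn : Pool.Agent.Results.MP_663568_nt.TwoStepNilmanifolds.IsFunctionOnNilmanifold β (fun h => F (p h)) := by
    refine ⟨F.continuous.comp hp.1, fun g m j => ?_⟩
    show F (p (mul β g (fun i => (m i : ℝ), fun l => (j l : ℝ)))) = F (p g)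
    rw [((hp.2.2 g _).2 ⟨m, j, rfl⟩)]
  have hEs : Pool.Agent.Results.MP_663568_nt.TwoStepNilmanifolds.SmallHorizontal E := by
    refine ⟨hEc, fun k hk => ⟨(hE k hk).1, fun x hx t ht => ?_⟩⟩
    rintro ⟨q, hq⟩
    have h := (hE k hk).2 x hx
    rw [addOrderOf_eq_zero_iff, isOfFinAddOrder_iff_nsmul_eq_zero] at h
    apply h
    refine ⟨q.den, q.pos, ?_⟩
    show q.den • (∑ i, k i • x i) = 0
    rw [← ht, ← hq, ← AddCircle.coe_nsmul, AddCircle.coe_eq_zero_iff]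
    refine ⟨q.num, ?_⟩
    rw [zsmul_eq_mul, mul_one, nsmul_eq_mul]
    have h2 := Rat.den_mul_eq_num q
    have h3 : ((q.den : ℝ)) * (q : ℝ) = (q.num : ℝ) := by exact_mod_cast h2
    rw [h3]
  set ι : Type := {g : (Fin d → ℝ) × (Fin c → ℝ) // (fun i => (g.1 i : UnitAddCircle)) ∈ E} ×
    ((Fin d → ℝ) × (Fin c → ℝ)) with hι
  set b : ι → ℕ → ℂ := fun i h => (F (p ((mul β i.1.1)^[h] i.2)) - c₀) / (K : ℂ) with hb
  have hb1 : ∀ i h, ‖b i h‖ ≤ 1 := fun i h => hFK _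
  rw [← norm_le_zero_iff]
  refine le_of_forall_pos_le_add fun ε hε => ?_
  rw [zero_add]
  obtain ⟨H₀, hmain⟩ := Pool.Agent.Results.MP_663568_nt.TwoStepNilmanifolds.windows d c β hβ _ hFn E hEs (ε / K)
    (by positivity)
  set H : ℕ := max H₀ 1 with hH
  have hH1 : 1 ≤ H := le_max_right _ _
  have hHr : (0 : ℝ) < H := by exact_mod_cast hH1
  have hGle := fur_sup hμ b 1 hb1 H (ε / K * H) H (by
    intro N hN
    refine le_trans (sum_le_sum fun n hn => mul_le_mul_of_nonneg_left ?_ (by positivity))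
      ((hmain N H (le_max_left _ _) hN).2 (cf0 f) (cf0_mult hf))
    have hn1 := (mem_Icc.1 hn).1
    refine Real.iSup_le (fun i => ?_) (Real.iSup_nonneg fun _ => norm_nonneg _)
    obtain ⟨⟨a, ha⟩, y⟩ := i
    obtain ⟨y₁, rfl⟩ := (hsurj a).iterate n y
    have hbd : BddAbove (Set.range fun q : {g : (Fin d → ℝ) × (Fin c → ℝ) // (fun i => (g.1 i : UnitAddCircle)) ∈ E} ×
        ((Fin d → ℝ) × (Fin c → ℝ)) => ‖∑ h ∈ Icc 1 H, cf0 f (n + h) *
          (F (p ((mul β q.1.1)^[n + h] q.2)) - mean (fun h => F (p h)))‖) := by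
      refine ⟨∑ h ∈ Icc 1 H, K, ?_⟩
      rintro _ ⟨q, rfl⟩
      refine (norm_sum_le _ _).trans (sum_le_sum fun h _ => ?_)
      rw [norm_mul]
      calc _ ≤ 1 * K := mul_le_mul ((cf0_mult hf).1 _) (hFc _) (norm_nonneg _) zero_le_one
        _ = K := one_mul _
    refine le_trans ?_ (le_ciSup hbd (⟨a, ha⟩, y₁))
    have e : ∑ h ∈ Icc 1 H, ((f (n + h) : ℝ) : ℂ) * b (⟨a, ha⟩, (mul β a)^[n] y₁) h =
        (∑ h ∈ Icc 1 H, cf0 f (n + h) * (F (p ((mul β a)^[n + h] y₁)) - c₀)) / (K : ℂ) := by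
      rw [sum_div]
      refine sum_congr rfl fun h _ => ?_
      rw [hb]
      simp only
      rw [← Function.iterate_add_apply, add_comm h n]
      unfold cf0
      rw [if_neg (by omega)]
      ring
    rw [e, norm_div, Complex.norm_real, Real.norm_of_nonneg hK0.le]
    exact div_le_self (norm_nonneg _) hK1)
  -- averaging over the orbit
  set G : Sq → ℝ := fun x => ⨆ i, ‖∑ h ∈ Icc 1 H, ((x (h : ℤ) : ℝ) : ℂ) * b i h‖ with hG
  have hGb : ∀ x : Sq, BddAbove (Set.range fun i => ‖∑ h ∈ Icc 1 H, ((x (h : ℤ) : ℝ) : ℂ) * b i h‖) := by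
    intro x
    refine ⟨∑ h ∈ Icc 1 H, 1, ?_⟩
    rintro _ ⟨i, rfl⟩
    refine (norm_sum_le _ _).trans (sum_le_sum fun h _ => ?_)
    rw [norm_mul]
    calc _ ≤ 1 * 1 := mul_le_mul (val_le _ _) (hb1 _ _) (norm_nonneg _) zero_le_one
      _ = 1 := one_mul _
  have hprob : IsProbabilityMeasure μ := hμ.1
  have hGn : ∀ x, 0 ≤ G x := fun x => Real.iSup_nonneg fun _ => norm_nonneg _
  have hGi : Integrable G μ := by
    refine Integrable.of_bound (sup_cont b 1 hb1 H).aestronglyMeasurable (∑ h ∈ Icc 1 H, 1) (ae_of_all _ fun x => ?_)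
    rw [Real.norm_of_nonneg (hGn x)]
    refine Real.iSup_le (fun i => ?_) (by positivity)
    refine (norm_sum_le _ _).trans (sum_le_sum fun h _ => ?_)
    rw [norm_mul]
    calc _ ≤ 1 * 1 := mul_le_mul (val_le _ _) (hb1 _ _) (norm_nonneg _) zero_le_one
      _ = 1 := one_mul _
  have h1 := Pool.Agent.Helper42K9.AC.abs_ Z ρ S π μ hext {ψ | ∃ i : ι, ψ = b i} H G hH1 hGi hGn
    (by rintro x _ ⟨i, rfl⟩; exact le_ciSup (hGb x) i)
    (B.indicator fun z => (F (φ z) - c₀) / (K : ℂ))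
    ((((F.continuous.measurable.comp hφ).sub_const c₀).div_const (K : ℂ)).indicator hB) (fun z => by
      by_cases hz : z ∈ B
      · rw [Set.indicator_of_mem hz]; exact hFK _
      · rw [Set.indicator_of_notMem hz]; simp) (by
      filter_upwards [hBS, horb, hBE] with z hz hzo hzE
      by_cases hzB : z ∈ B
      · right
        obtain ⟨h₀, hh₀⟩ := hp.2.1 (φ z)
        refine ⟨1, zero_le_one, le_rfl, b (⟨g z, hzE hzB⟩, h₀), ⟨_, rfl⟩, fun n => ?_⟩
        rw [Set.indicator_of_mem ((hz n).2 hzB), hzo n, ← hh₀, hit, Complex.ofReal_one, one_mul]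
      · left
        intro n
        rw [Set.indicator_of_notMem (fun h => hzB ((hz n).1 h))])
  have h2 : (H : ℝ) * ‖∫ z, ((π z 0 : ℝ) : ℂ) * B.indicator (fun z => (F (φ z) - c₀) / (K : ℂ)) z ∂ρ‖ ≤ H * (ε / K) :=
    (h1.trans hGle).trans (le_of_eq (mul_comm _ _))
  have h3 := le_of_mul_le_mul_left h2 hHr
  have e : ∫ z, ((π z 0 : ℝ) : ℂ) * B.indicator (fun z => F (φ z) - c₀) z ∂ρ =
      K * ∫ z, ((π z 0 : ℝ) : ℂ) * B.indicator (fun z => (F (φ z) - c₀) / (K : ℂ)) z ∂ρ := by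
    rw [← integral_const_mul]
    refine integral_congr_ae (ae_of_all _ fun z => ?_)
    have hKc : (K : ℂ) ≠ 0 := by exact_mod_cast hK0.ne'
    by_cases hz : z ∈ B
    · simp only [Set.indicator_of_mem hz]
      field_simp
    · simp only [Set.indicator_of_notMem hz]
      ring
  rw [e, norm_mul, Complex.norm_real, Real.norm_of_nonneg hK0.le]
  calc K * _ ≤ K * (ε / K) := mul_le_mul_of_nonneg_left h3 hK0.le
    _ = ε := by field_simp

end main

end Pool.Agent.Helper44K9.FS
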