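import Pool.Agent.Helper44K9.FS.Fur

/-!
# Furstenberg systems: orthogonality to families of two-step nilrotations with singular frequencies, all functions
-/

set_option autoImplicit false

namespace Pool.Agent.Helper44K9.FS

open Finset MeasureTheory Filter Topology
open Pool.Agent.Helper42K9.AC (Val Sq IsFurstenbergSystem IsMult Aperiodic Ext Cls S_PER)
open Pool.Agent.Helper44K9.FB (lf)
open Pool.Agent.Results.MP_663568_nt.TwoStepNilmanifolds (mul CommutatorsSpan windowSup mean IsBoundedMultiplicative)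

section main

variable {f : ℕ → Val} {μ : Measure Sq} {Z : Type} [MeasurableSpace Z] {ρ : Measure Z} [IsProbabilityMeasure ρ]
  {S : Z → Z} {π : Z → Sq} {d c : ℕ} {β : Fin c → Matrix (Fin d) (Fin d) ℤ} {Y : Type} [MetricSpace Y]
  [CompactSpace Y] [MeasurableSpace Y] [BorelSpace Y] {p : (Fin d → ℝ) × (Fin c → ℝ) → Y}
  {act : (Fin d → ℝ) × (Fin c → ℝ) → Y → Y}

/-- continuous functions on the nilmanifold, invariant sets -/
lemma two_set (hf : IsMult f) (ha : Aperiodic f) (hμ : IsFurstenbergSystem f μ) (hext : Ext ρ S π μ) (hPER : S_PER)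
    (hβ : CommutatorsSpan β) (hp : IsNil β p) (hact : ∀ g h, act g (p h) = p (mul β g h))
    (g : Z → (Fin d → ℝ) × (Fin c → ℝ)) (hg : Measurable fun z => par (g z)) (φ : Z → Y) (hφ : Measurable φ)
    (hgS : ∀ᵐ z ∂ρ, g (S z) = g z) (hφS : ∀ᵐ z ∂ρ, φ (S z) = act (g z) (φ z))
    (hsing : ∀ k : Fin d → ℤ, k ≠ 0 → (ρ.map fun z => lf k (par (g z))) ⟂ₘ (volume : Measure UnitAddCircle))
    (hirr : ∀ k : Fin d → ℤ, k ≠ 0 → ∀ᵐ z ∂ρ, addOrderOf (lf k (par (g z))) = 0)
    {B : Set Z} (hB : MeasurableSet B) (hBS : ∀ᵐ z ∂ρ, ∀ n : ℕ, (S^[n] z ∈ B ↔ z ∈ B)) (F : C(Y, ℂ)) :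
    ∫ z, ((π z 0 : ℝ) : ℂ) * B.indicator (fun z => F (φ z)) z ∂ρ = 0 := by
  have hS1 := hext.inv
  have hgn : ∀ᵐ z ∂ρ, ∀ n : ℕ, g (S^[n] z) = g z := by
    filter_upwards [Pool.Agent.Helper42K9.AC.AbsL.ae_orbit hS1 hgS] with z hz n
    induction n with
    | zero => rfl
    | succ n ih => rw [Function.iterate_succ_apply', hz n, ih]
  have hφn : ∀ᵐ z ∂ρ, ∀ n : ℕ, φ (S^[n] z) = (act (g z))^[n] (φ z) := by
    filter_upwards [Pool.Agent.Helper42K9.AC.AbsL.ae_orbit hS1 hφS, hgn] with z hz hgz n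
    induction n with
    | zero => rfl
    | succ n ih => rw [Function.iterate_succ_apply', hz n, hgz n, ih, Function.iterate_succ_apply']
  set c₀ : ℂ := mean (fun h => F (p h)) with hc₀
  have hx : Measurable fun z => ((π z 0 : ℝ) : ℂ) :=
    Complex.measurable_ofReal.comp (measurable_subtype_coe.comp ((measurable_pi_apply 0).comp hext.fac.measurable))
  have hFm : Measurable fun z => F (φ z) - c₀ := (F.continuous.measurable.comp hφ).sub_const c₀
  have hFb : ∀ z, ‖F (φ z) - c₀‖ ≤ ‖F‖ + ‖c₀‖ := fun z =>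
    (norm_sub_le _ _).trans (add_le_add (F.norm_coe_le_norm _) le_rfl)
  set K : ℝ := ‖F‖ + ‖c₀‖ + 1 with hK
  have hK0 : 0 < K := by positivity
  -- integrability
  have hint : ∀ (A : Set Z), MeasurableSet A → Integrable
      (fun z => ((π z 0 : ℝ) : ℂ) * A.indicator (fun z => F (φ z) - c₀) z) ρ := by
    intro A hA
    refine Integrable.of_bound (hx.mul (hFm.indicator hA)).aestronglyMeasurable K (ae_of_all _ fun z => ?_)
    rw [norm_mul]
    have h1 : ‖A.indicator (fun z => F (φ z) - c₀) z‖ ≤ K := by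
      by_cases hz : z ∈ A
      · rw [Set.indicator_of_mem hz]; have := hFb z; linarith
      · rw [Set.indicator_of_notMem hz, norm_zero]; exact hK0.le
    calc _ ≤ 1 * K := mul_le_mul (val_le _ _) h1 (norm_nonneg _) zero_le_one
      _ = K := one_mul _
  -- mean zero part
  have hzero : ∫ z, ((π z 0 : ℝ) : ℂ) * B.indicator (fun z => F (φ z) - c₀) z ∂ρ = 0 := by
    rw [← norm_le_zero_iff]
    refine le_of_forall_pos_le_add fun ε hε => ?_
    rw [zero_add]
    obtain ⟨E, hEc, hE, hρE⟩ := exists_compact ρ (fun z => par (g z)) hg {k | k ≠ 0}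
      (fun k hk => hsing k hk) (fun k hk => hirr k hk) (ENNReal.ofReal (ε / K)) (by simp [div_pos hε hK0])
    set D : Set Z := {z | par (g z) ∈ E} with hD
    have hDm : MeasurableSet D := hg hEc.measurableSet
    have hDS : ∀ᵐ z ∂ρ, ∀ n : ℕ, (S^[n] z ∈ D ↔ z ∈ D) := by
      filter_upwards [hgn] with z hz n
      show par (g (S^[n] z)) ∈ E ↔ par (g z) ∈ E
      rw [hz n]
    have h1 := two_E hf hμ hext hβ hp hact g φ hφ hφn hEc (fun k hk => hE k hk) (hB.inter hDm) (B := B ∩ D) (by
      filter_upwards [hBS, hDS] with z h2 h3 n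
      exact and_congr (h2 n) (h3 n)) (ae_of_all _ fun z hz => hz.2) F
    have h2 : ∫ z, ((π z 0 : ℝ) : ℂ) * B.indicator (fun z => F (φ z) - c₀) z ∂ρ =
        ∫ z, ((π z 0 : ℝ) : ℂ) * (B ∩ D).indicator (fun z => F (φ z) - c₀) z ∂ρ +
        ∫ z, ((π z 0 : ℝ) : ℂ) * (B \ D).indicator (fun z => F (φ z) - c₀) z ∂ρ := by
      rw [← integral_add (hint _ (hB.inter hDm)) (hint _ (hB.diff hDm))]
      refine integral_congr_ae (ae_of_all _ fun z => ?_)
      by_cases hzB : z ∈ B <;> by_cases hzD : z ∈ D <;> simp [Set.indicator, hzB, hzD]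
    rw [h2, h1, zero_add]
    refine (norm_integral_le_integral_norm _).trans ?_
    have h3 : ∫ z, ‖((π z 0 : ℝ) : ℂ) * (B \ D).indicator (fun z => F (φ z) - c₀) z‖ ∂ρ ≤
        ∫ z, Dᶜ.indicator (fun _ => K) z ∂ρ := by
      refine integral_mono (hint _ (hB.diff hDm)).norm ((integrable_const K).indicator hDm.compl) fun z => ?_
      show ‖((π z 0 : ℝ) : ℂ) * (B \ D).indicator (fun z => F (φ z) - c₀) z‖ ≤ Dᶜ.indicator (fun _ => K) z
      by_cases hz : z ∈ B \ D
      · rw [Set.indicator_of_mem hz, Set.indicator_of_mem (show z ∈ Dᶜ from hz.2), norm_mul]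
        have := hFb z
        calc _ ≤ 1 * K := mul_le_mul (val_le _ _) (by linarith) (norm_nonneg _) zero_le_one
          _ = K := one_mul _
      · rw [Set.indicator_of_notMem hz, mul_zero, norm_zero]
        exact Set.indicator_nonneg (fun _ _ => hK0.le) z
    refine h3.trans ?_
    rw [integral_indicator_const _ hDm.compl, smul_eq_mul]
    have h4 : ρ.real Dᶜ ≤ ε / K := by
      unfold Measure.real
      rw [← ENNReal.toReal_ofReal (show 0 ≤ ε / K by positivity)]
      exact ENNReal.toReal_mono ENNReal.ofReal_ne_top hρE.le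
    calc ρ.real Dᶜ * K ≤ ε / K * K := mul_le_mul_of_nonneg_right h4 hK0.le
      _ = ε := by field_simp
  have hcst := inv_set hf ha hμ hext hPER hB hBS
  have e : ∫ z, ((π z 0 : ℝ) : ℂ) * B.indicator (fun z => F (φ z)) z ∂ρ =
      ∫ z, ((π z 0 : ℝ) : ℂ) * B.indicator (fun z => F (φ z) - c₀) z ∂ρ +
      c₀ * ∫ z, ((π z 0 : ℝ) : ℂ) * B.indicator (fun _ => (1 : ℂ)) z ∂ρ := by
    rw [← integral_const_mul, ← integral_add (hint B hB)]
    · refine integral_congr_ae (ae_of_all _ fun z => ?_)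
      by_cases hz : z ∈ B
      · simp only [Set.indicator_of_mem hz]; ring
      · simp only [Set.indicator_of_notMem hz]; ring
    · refine Integrable.const_mul ?_ c₀
      refine Integrable.of_bound (hx.mul (measurable_const.indicator hB)).aestronglyMeasurable 1
        (ae_of_all _ fun z => ?_)
      rw [norm_mul]
      have h1 : ‖B.indicator (fun _ => (1 : ℂ)) z‖ ≤ 1 := by
        by_cases hz : z ∈ B
        · rw [Set.indicator_of_mem hz]; simp
        · rw [Set.indicator_of_notMem hz]; simp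
      calc _ ≤ 1 * 1 := mul_le_mul (val_le _ _) h1 (norm_nonneg _) zero_le_one
        _ = 1 := one_mul _
  rw [e, hzero, hcst]
  simp

/-- from products to all functions -/
lemma all_functions {Z W Y : Type} [MeasurableSpace Z] [MeasurableSpace W] [MetricSpace Y] [CompactSpace Y]
    [MeasurableSpace Y] [BorelSpace Y] (ρ : Measure Z) [IsProbabilityMeasure ρ] (v : Z → ℝ) (hv : Measurable v)
    (hv1 : ∀ z, |v z| ≤ 1) (κ : Z → W) (hκ : Measurable κ) (φ : Z → Y) (hφ : Measurable φ)
    (h : ∀ B : Set W, MeasurableSet B → ∀ F : C(Y, ℂ),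
      ∫ z, ((v z : ℝ) : ℂ) * (κ ⁻¹' B).indicator (fun z => F (φ z)) z ∂ρ = 0)
    (V : W × Y → ℂ) (hV : Measurable V) (C : ℝ) (hVC : ∀ w, ‖V w‖ ≤ C) :
    ∫ z, ((v z : ℝ) : ℂ) * V (κ z, φ z) ∂ρ = 0 := by
  set P : Measure Z := ρ.withDensity (fun z => ENNReal.ofReal (v z)) with hP
  set Q : Measure Z := ρ.withDensity (fun z => ENNReal.ofReal (-v z)) with hQ
  have hfin : ∀ w : Z → ℝ, (∀ z, |w z| ≤ 1) → IsFiniteMeasure (ρ.withDensity fun z => ENNReal.ofReal (w z)) := by
    intro w hw
    refine isFiniteMeasure_withDensity ?_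
    refine ne_of_lt (lt_of_le_of_lt (lintegral_mono (g := fun _ => 1) fun z => ?_) ?_)
    · show ENNReal.ofReal (w z) ≤ 1
      rw [ENNReal.ofReal_le_one]
      exact (le_abs_self _).trans (hw z)
    · rw [lintegral_one, measure_univ]; exact ENNReal.one_lt_top
  have hPf : IsFiniteMeasure P := hfin v hv1
  have hQf : IsFiniteMeasure Q := hfin (fun z => -v z) (fun z => by rw [abs_neg]; exact hv1 z)
  have hpair : Measurable fun z => (κ z, φ z) := hκ.prodMk hφ
  -- integrals against the two densities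
  have hdiff : ∀ (A : Set Z), MeasurableSet A → ∀ (u : Z → ℝ), Measurable u → ∀ C : ℝ, (∀ z, |u z| ≤ C) →
      ∫ z in A, u z ∂P - ∫ z in A, u z ∂Q = ∫ z in A, v z * u z ∂ρ := by
    intro A hA u hu C hC
    have hvn : Measurable fun z => -v z := hv.neg
    rw [hP, hQ, restrict_withDensity hA, restrict_withDensity hA,
      integral_withDensity_eq_integral_toReal_smul hv.ennreal_ofReal (ae_of_all _ fun _ => ENNReal.ofReal_lt_top),
      integral_withDensity_eq_integral_toReal_smul hvn.ennreal_ofReal (ae_of_all _ fun _ => ENNReal.ofReal_lt_top),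
      ← integral_sub]
    · refine integral_congr_ae (ae_of_all _ fun z => ?_)
      simp only [smul_eq_mul, ENNReal.toReal_ofReal']
      rcases le_total 0 (v z) with h1 | h1
      · rw [max_eq_left h1, max_eq_right (by linarith)]; ring
      · rw [max_eq_right h1, max_eq_left (by linarith)]; ring
    · refine Integrable.of_bound (hv.ennreal_ofReal.ennreal_toReal.mul hu).aestronglyMeasurable C
        (ae_of_all _ fun z => ?_)
      rw [smul_eq_mul, norm_mul, ENNReal.toReal_ofReal', Real.norm_of_nonneg (le_max_right _ _)]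
      have h1 : max (v z) 0 ≤ 1 := max_le ((le_abs_self _).trans (hv1 z)) zero_le_one
      calc _ ≤ 1 * C := mul_le_mul h1 (hC z) (abs_nonneg _) zero_le_one
        _ = C := one_mul _
    · refine Integrable.of_bound (hvn.ennreal_ofReal.ennreal_toReal.mul hu).aestronglyMeasurable C
        (ae_of_all _ fun z => ?_)
      rw [smul_eq_mul, norm_mul, ENNReal.toReal_ofReal', Real.norm_of_nonneg (le_max_right _ _)]
      have h1 : max (-v z) 0 ≤ 1 := max_le ((neg_le_abs _).trans (hv1 z)) zero_le_one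
      calc _ ≤ 1 * C := mul_le_mul h1 (hC z) (abs_nonneg _) zero_le_one
        _ = C := one_mul _
  -- the two measures on the product agree
  have hPQ : P.map (fun z => (κ z, φ z)) = Q.map (fun z => (κ z, φ z)) := by
    have i1 : IsFiniteMeasure (P.map fun z => (κ z, φ z)) := Measure.isFiniteMeasure_map P _
    have i2 : IsFiniteMeasure (Q.map fun z => (κ z, φ z)) := Measure.isFiniteMeasure_map Q _
    refine Measure.ext_prod fun {B} {A} hB hA => ?_
    have hY : ((P.restrict (κ ⁻¹' B)).map φ) = ((Q.restrict (κ ⁻¹' B)).map φ) := by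
      refine ext_of_forall_integral_eq_of_IsFiniteMeasure fun F => ?_
      rw [integral_map hφ.aemeasurable F.continuous.aestronglyMeasurable,
        integral_map hφ.aemeasurable F.continuous.aestronglyMeasurable, ← sub_eq_zero,
        hdiff (κ ⁻¹' B) (hκ hB) (fun z => F (φ z)) (F.continuous.measurable.comp hφ) ‖F‖
          (fun z => F.norm_coe_le_norm _)]
      have h1 := h B hB ⟨fun y => ((F y : ℝ) : ℂ), Complex.continuous_ofReal.comp F.continuous⟩
      have h2 : ∫ z, ((v z : ℝ) : ℂ) * (κ ⁻¹' B).indicator (fun z => ((F (φ z) : ℝ) : ℂ)) z ∂ρ =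
          ((∫ z in κ ⁻¹' B, v z * F (φ z) ∂ρ : ℝ) : ℂ) := by
        rw [← integral_complex_ofReal, ← integral_indicator (hκ hB)]
        refine integral_congr_ae (ae_of_all _ fun z => ?_)
        by_cases hz : z ∈ κ ⁻¹' B
        · simp only [Set.indicator_of_mem hz]
          push_cast
          ring
        · simp only [Set.indicator_of_notMem hz]
          simp
      have h3 : ((∫ z in κ ⁻¹' B, v z * F (φ z) ∂ρ : ℝ) : ℂ) = 0 := by rw [← h2]; exact h1
      exact_mod_cast h3
    have hA2 := congrArg (fun m : Measure Y => m A) hY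
    simp only [Measure.map_apply hφ hA] at hA2
    rw [Measure.restrict_apply (hφ hA), Measure.restrict_apply (hφ hA)] at hA2
    rw [Measure.map_apply hpair (hB.prod hA), Measure.map_apply hpair (hB.prod hA)]
    have e : (fun z => (κ z, φ z)) ⁻¹' (B ×ˢ A) = φ ⁻¹' A ∩ κ ⁻¹' B := by
      ext z; simp [and_comm]
    rw [e]
    exact hA2
  -- real functions
  have hreal : ∀ u : W × Y → ℝ, Measurable u → ∀ C : ℝ, (∀ w, |u w| ≤ C) → ∫ z, v z * u (κ z, φ z) ∂ρ = 0 := by
    intro u hu C hC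
    have h1 := hdiff Set.univ MeasurableSet.univ (fun z => u (κ z, φ z)) (hu.comp hpair) C (fun z => hC _)
    simp only [Measure.restrict_univ] at h1
    rw [← h1, ← integral_map hpair.aemeasurable hu.aestronglyMeasurable,
      ← integral_map hpair.aemeasurable hu.aestronglyMeasurable, hPQ, sub_self]
  have hre := hreal (fun w => (V w).re) (Complex.measurable_re.comp hV) C fun w =>
    (Complex.abs_re_le_norm _).trans (hVC w)
  have him := hreal (fun w => (V w).im) (Complex.measurable_im.comp hV) C fun w =>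
    (Complex.abs_im_le_norm _).trans (hVC w)
  have hVi : Integrable (fun z => ((v z : ℝ) : ℂ) * V (κ z, φ z)) ρ := by
    refine Integrable.of_bound ((Complex.measurable_ofReal.comp hv).mul (hV.comp hpair)).aestronglyMeasurable C
      (ae_of_all _ fun z => ?_)
    rw [norm_mul, Complex.norm_real]
    calc _ ≤ 1 * C := mul_le_mul (hv1 z) (hVC _) (norm_nonneg _) zero_le_one
      _ = C := one_mul _
  apply Complex.ext
  · have h1 : (∫ z, ((v z : ℝ) : ℂ) * V (κ z, φ z) ∂ρ).re = ∫ z, (((v z : ℝ) : ℂ) * V (κ z, φ z)).re ∂ρ :=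
      (integral_re hVi).symm
    rw [h1, Complex.zero_re, ← hre]
    refine integral_congr_ae (ae_of_all _ fun z => ?_)
    simp
  · have h1 : (∫ z, ((v z : ℝ) : ℂ) * V (κ z, φ z) ∂ρ).im = ∫ z, (((v z : ℝ) : ℂ) * V (κ z, φ z)).im ∂ρ :=
      (integral_im hVi).symm
    rw [h1, Complex.zero_im, ← him]
    refine integral_congr_ae (ae_of_all _ fun z => ?_)
    simp

/-- **families of two-step nilrotations in extensions of Furstenberg systems** -/
theorem two (hf : IsMult f) (ha : Aperiodic f) (hμ : IsFurstenbergSystem f μ) (hext : Ext ρ S π μ) (hPER : S_PER)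
    (hβ : CommutatorsSpan β) (hp : IsNil β p) (hact : ∀ g h, act g (p h) = p (mul β g h))
    (g : Z → (Fin d → ℝ) × (Fin c → ℝ)) (hg : Measurable fun z => par (g z)) (φ : Z → Y) (hφ : Measurable φ)
    (hgS : ∀ᵐ z ∂ρ, g (S z) = g z) (hφS : ∀ᵐ z ∂ρ, φ (S z) = act (g z) (φ z))
    (hsing : ∀ k : Fin d → ℤ, k ≠ 0 → (ρ.map fun z => lf k (par (g z))) ⟂ₘ (volume : Measure UnitAddCircle))
    (hirr : ∀ k : Fin d → ℤ, k ≠ 0 → ∀ᵐ z ∂ρ, addOrderOf (lf k (par (g z))) = 0)
    {W : Type} [MeasurableSpace W] (κ : Z → W) (hκ : Measurable κ) (hκS : ∀ᵐ z ∂ρ, κ (S z) = κ z)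
    (V : W × Y → ℂ) (hV : Measurable V) (C : ℝ) (hVC : ∀ w, ‖V w‖ ≤ C) :
    ∫ z, ((π z 0 : ℝ) : ℂ) * V (κ z, φ z) ∂ρ = 0 := by
  have hκn : ∀ᵐ z ∂ρ, ∀ n : ℕ, κ (S^[n] z) = κ z := by
    filter_upwards [Pool.Agent.Helper42K9.AC.AbsL.ae_orbit hext.inv hκS] with z hz n
    induction n with
    | zero => rfl
    | succ n ih => rw [Function.iterate_succ_apply', hz n, ih]
  refine all_functions ρ (fun z => (π z 0 : ℝ))
    (measurable_subtype_coe.comp ((measurable_pi_apply 0).comp hext.fac.measurable)) (fun z => ?_) κ hκ φ hφ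
    (fun B hB F => two_set hf ha hμ hext hPER hβ hp hact g hg φ hφ hgS hφS hsing hirr (hκ hB) ?_ F) V hV C hVC
  · have := val_le (π z) 0
    rwa [Complex.norm_real] at this
  · filter_upwards [hκn] with z hz n
    show κ (S^[n] z) ∈ B ↔ κ z ∈ B
    rw [hz n]

end main

end Pool.Agent.Helper44K9.FS
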