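import Pool.Agent.Helper44K9.FS.Fur2

/-!
# Families of two-step nilrotations in extensions of Furstenberg systems: plain form
-/

set_option autoImplicit false

namespace Pool.Agent.Helper44K9.FS

open Finset MeasureTheory Filter Topology
open Pool.Agent.Helper42K9.AC (Val Sq IsFurstenbergSystem IsMult Aperiodic Ext S_PER)
open Pool.Agent.Helper44K9.FB (lf)
open Pool.Agent.Results.MP_663568_nt.TwoStepNilmanifolds (mul CommutatorsSpan)

lemma mul_assoc' {d c : ℕ} (β : Fin c → Matrix (Fin d) (Fin d) ℤ) (g h k : (Fin d → ℝ) × (Fin c → ℝ)) :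
    mul β (mul β g h) k = mul β g (mul β h k) := by
  unfold mul
  refine Prod.ext ?_ ?_
  · simp only
    abel
  · funext l
    simp only [Pi.add_apply]
    have e1 : ∑ i, ∑ j, (g.1 i + h.1 i) * (β l i j : ℝ) * k.1 j =
        ∑ i, ∑ j, g.1 i * (β l i j : ℝ) * k.1 j + ∑ i, ∑ j, h.1 i * (β l i j : ℝ) * k.1 j := by
      rw [← sum_add_distrib]
      refine sum_congr rfl fun i _ => ?_
      rw [← sum_add_distrib]
      exact sum_congr rfl fun j _ => by ring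
    have e2 : ∑ i, ∑ j, g.1 i * (β l i j : ℝ) * (h.1 j + k.1 j) =
        ∑ i, ∑ j, g.1 i * (β l i j : ℝ) * h.1 j + ∑ i, ∑ j, g.1 i * (β l i j : ℝ) * k.1 j := by
      rw [← sum_add_distrib]
      refine sum_congr rfl fun i _ => ?_
      rw [← sum_add_distrib]
      exact sum_congr rfl fun j _ => by ring
    rw [e1, e2]
    ring

lemma act_exists {d c : ℕ} {β : Fin c → Matrix (Fin d) (Fin d) ℤ} {Y : Type} [TopologicalSpace Y]
    {p : (Fin d → ℝ) × (Fin c → ℝ) → Y} (hp : IsNil β p) :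
    ∃ act : (Fin d → ℝ) × (Fin c → ℝ) → Y → Y, ∀ g h, act g (p h) = p (mul β g h) := by
  choose s hs using hp.2.1
  refine ⟨fun g y => p (mul β g (s y)), fun g h => ?_⟩
  show p (mul β g (s (p h))) = p (mul β g h)
  have h1 : p (s (p h)) = p h := hs (p h)
  obtain ⟨m, j, h2⟩ := (hp.2.2 _ _).1 h1
  rw [(hp.2.2 (mul β g (s (p h))) (mul β g h))]
  refine ⟨m, j, ?_⟩
  rw [mul_assoc', ← h2]

/-- `φ` is a family of two-step nilrotations of `Y`, with singular frequencies -/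
def TwoStepFamily {Z : Type} [MeasurableSpace Z] (ρ : Measure Z) (S : Z → Z) {Y : Type} [TopologicalSpace Y]
    [MeasurableSpace Y] (φ : Z → Y) : Prop :=
  ∃ (d c : ℕ) (β : Fin c → Matrix (Fin d) (Fin d) ℤ) (p : (Fin d → ℝ) × (Fin c → ℝ) → Y)
    (g : Z → (Fin d → ℝ) × (Fin c → ℝ)), CommutatorsSpan β ∧ IsNil β p ∧ Measurable g ∧ Measurable φ ∧
    (∀ᵐ z ∂ρ, g (S z) = g z) ∧ (∀ᵐ z ∂ρ, ∀ h, p h = φ z → φ (S z) = p (mul β (g z) h)) ∧
    ∀ k : Fin d → ℤ, k ≠ 0 →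
      (ρ.map fun z => ∑ i, k i • (((g z).1 i : ℝ) : UnitAddCircle)) ⟂ₘ (volume : Measure UnitAddCircle) ∧
      ∀ᵐ z ∂ρ, Irrational (∑ i, (k i : ℝ) * (g z).1 i)

/-- **part (b)** -/
theorem part_b (hPER : S_PER) (f : ℕ → Val) (hf : IsMult f) (ha : Aperiodic f) (μ : Measure Sq)
    (hμ : IsFurstenbergSystem f μ) (Z : Type) [MeasurableSpace Z] (ρ : Measure Z) [IsProbabilityMeasure ρ]
    (S : Z → Z) (π : Z → Sq) (hext : Ext ρ S π μ)
    (Y : Type) [MetricSpace Y] [CompactSpace Y] [MeasurableSpace Y] [BorelSpace Y] (φ : Z → Y)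
    (hφ : TwoStepFamily ρ S φ) (W : Type) [MeasurableSpace W] (κ : Z → W) (hκ : Measurable κ)
    (hκS : ∀ᵐ z ∂ρ, κ (S z) = κ z) (V : W × Y → ℂ) (hV : Measurable V) (C : ℝ) (hVC : ∀ w, ‖V w‖ ≤ C) :
    ∫ z, ((π z 0 : ℝ) : ℂ) * V (κ z, φ z) ∂ρ = 0 := by
  obtain ⟨d, c, β, p, g, hβ, hp, hg, hφm, hgS, hφS, hk⟩ := hφ
  obtain ⟨act, hact⟩ := act_exists hp
  have hpar : Measurable fun z => par (g z) := by
    unfold par
    refine measurable_pi_lambda _ fun i => ?_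
    exact AddCircle.measurable_mk'.comp ((measurable_pi_apply i).comp hg.fst)
  refine two hf ha hμ hext hPER hβ hp hact g hpar φ hφm hgS ?_ (fun k hk0 => (hk k hk0).1) (fun k hk0 => ?_) κ hκ hκS
    V hV C hVC
  · filter_upwards [hφS] with z hz
    obtain ⟨h, hh⟩ := hp.2.1 (φ z)
    rw [hz h hh, ← hh, hact]
  · filter_upwards [(hk k hk0).2] with z hz
    have e : lf k (par (g z)) = (((∑ i, (k i : ℝ) * (g z).1 i : ℝ)) : UnitAddCircle) := by
      have h1 : (((∑ i, (k i : ℝ) * (g z).1 i : ℝ)) : UnitAddCircle) =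
          ∑ i, (((k i : ℝ) * (g z).1 i : ℝ) : UnitAddCircle) :=
        map_sum (QuotientAddGroup.mk' (AddSubgroup.zmultiples (1 : ℝ))) _ _
      rw [h1]
      unfold lf par
      refine sum_congr rfl fun i _ => ?_
      rw [← AddCircle.coe_zsmul, zsmul_eq_mul]
    rw [e]
    by_contra hne
    have h5 := addOrderOf_nsmul_eq_zero (((∑ i, (k i : ℝ) * (g z).1 i : ℝ)) : UnitAddCircle)
    rw [← AddCircle.coe_nsmul, AddCircle.coe_eq_zero_iff] at h5
    obtain ⟨j, hj⟩ := h5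
    apply hz
    refine ⟨(j : ℚ) / (addOrderOf (((∑ i, (k i : ℝ) * (g z).1 i : ℝ)) : UnitAddCircle) : ℚ), ?_⟩
    push_cast
    rw [div_eq_iff (by exact_mod_cast hne)]
    simp only [zsmul_eq_mul, mul_one, nsmul_eq_mul] at hj
    rw [hj]
    ring

end Pool.Agent.Helper44K9.FS
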